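import Pool.Agent.H53.MIX.ContraQ
import Pool.Agent.H53.MIX.MsW
import Pool.Agent.H53.MID.Base
import Pool.Agent.H53.MID.Lfu

/-!
# MIX LfuX: local Fourier uniformity of `Fp (hR R) P`, `P ≥ exp((log N)^t)`

Copy and adapt `Pool.Agent.H53.MID.lfu` (file `H53/MID/Lfu.lean`, complete), with `CombX t t2` in place of `comb`, `contra_q` in place of `contra`, `ms_w` (with `t1 < t`) in place of `ms`.
`L = log N`, `Q = exp(L^t2)`, `n = N/H`.  `base` (exponent `A+1`): `C0 = 5(A+1)+14`, `η = 2 L^(A+6)/H`, `Rel 30 n P (η P)`, `|R0| ≥ n P/L^C0`.  `η Q^60 P^3 ≤ 1`: `H ≥ P^5` and `P^2 ≥ exp(2 L^t) ≥ 2 L^(A+6) Q^60` for large `N` (`t2 < t`).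
`n ≥ N^(1/4)` as `H^2 ≤ N`.  `hCX 30 C0`: `C1`, `d, b, T', F1`.  `T = T' H`: `|T| ≤ Q^20 · 2 L^(A+6) n^2 ≤ Q2 n^2`, `nz(α i - b/d - T/(i H)) ≤ Q^13 η ≤ Q2/H` with `Q2 = Q^21`.  `|T| ≤ N^2` since `Q^21 ≤ H^2`, `n ≤ N/H`.
`contra_q 10 (A+1) C1` with `w0 = R^4 + 2`: `w0 P Q2 L^(A+5) ≤ H`.  `ms_w` with `A' = 2(A+1) + 2C1 + 3`, `C' = C1`, `B0 = C1`, `θ = 1/(n Q2 L^(A+4))`: `P L^C4 ≤ θ N`.  `K1 = N/(16P)`, `K2 = 12N/P`, `K2 ≥ N^(1/2)`, everything else as in `lfu`.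
-/

set_option autoImplicit false

namespace Pool.Agent.H53.MIX

open Finset MeasureTheory
open Pool.Agent.H91.PK (ee)
open Pool.Agent.H91.EHA (Lam hR lamR ramS)
open Pool.Agent.H53.MID
open Pool.Agent.H35.W (pb)

/-- the indices of the blocks -/
private theorem LfuX_range {N H i : ℕ} (hH : 8 ≤ H) (hHN : H ^ 2 ≤ N)
    (hi : i ∈ Icc (N / (2 * H)) (4 * N / H)) :
    ((N / H : ℕ) : ℝ) / 10 ≤ i ∧ (i : ℝ) ≤ 10 * ((N / H : ℕ) : ℝ) ∧ N ≤ 4 * (i * H) ∧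
      (i + 1) * H ≤ 5 * N := by
  rw [mem_Icc] at hi
  obtain ⟨h1, h2⟩ := hi
  have hH0 : 0 < H := by omega
  have e1 : N / (2 * H) = N / H / 2 := by
    rw [Nat.div_div_eq_div_mul, mul_comm]
  rw [e1] at h1
  have h8 : 8 * H ≤ N := by nlinarith
  have hn8 : 8 ≤ N / H := (Nat.le_div_iff_mul_le hH0).mpr h8
  have hnH : N / H * H ≤ N := Nat.div_mul_le_self N H
  have hnH2 : N < (N / H + 1) * H := by
    have := Nat.lt_mul_div_succ N hH0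
    rw [mul_comm]
    exact this
  have h3 : N / H ≤ 2 * i + 1 := by omega
  have h4 : 4 * N / H ≤ 4 * (N / H) + 3 := by
    have h5 : 4 * N < (4 * (N / H) + 4) * H := by nlinarith
    have h6 : 4 * N / H < 4 * (N / H) + 4 := by
      rw [Nat.div_lt_iff_lt_mul hH0]
      exact h5
    omega
  have h5 : 4 * N / H * H ≤ 4 * N := Nat.div_mul_le_self _ _
  refine ⟨?_, ?_, ?_, ?_⟩
  · have h6 : ((N / H : ℕ) : ℝ) ≤ 2 * i + 1 := by exact_mod_cast h3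
    have h7 : (8 : ℝ) ≤ ((N / H : ℕ) : ℝ) := by exact_mod_cast hn8
    linarith
  · have h6 : i ≤ 10 * (N / H) := by omega
    exact_mod_cast h6
  · have h6 : (N / H + 1) * H ≤ (2 * i + 2) * H := Nat.mul_le_mul_right H (by omega)
    nlinarith
  · have h6 : i * H ≤ 4 * N / H * H := Nat.mul_le_mul_right H h2
    nlinarith

/-- cutting off the coefficients does not change the values on the blocks -/
private theorem LfuX_cut {N P m : ℕ} (g : ℕ → ℝ) (hN : 0 < N) (hP : 0 < P) (h1 : N ≤ 4 * m)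
    (h2 : m ≤ 5 * N) :
    Fp (cut (N / (16 * P)) (5 * N / P) g) P m = Fp g P m := by
  unfold Fp
  apply Finset.sum_congr rfl
  intro p hp
  rw [Finset.mem_filter] at hp
  obtain ⟨hp1, k, rfl⟩ := hp
  unfold pb at hp1
  rw [Finset.mem_filter, mem_Ioc] at hp1
  obtain ⟨⟨hp2, hp3⟩, -⟩ := hp1
  have hp0 : 0 < p := by omega
  rw [Nat.mul_div_cancel_left k hp0]
  unfold cut
  rw [if_pos]
  rw [mem_Ioc]
  have hk : 0 < k := by
    rcases Nat.eq_zero_or_pos k with h | h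
    · rw [h] at h1
      omega
    · exact h
  constructor
  · have h3 : N / (16 * P) * (16 * P) ≤ N := Nat.div_mul_le_self _ _
    have h4 : 4 * (p * k) ≤ 8 * (P * k) := by
      have : p * k ≤ 2 * P * k := Nat.mul_le_mul_right k hp3
      nlinarith
    have h5 : P * (2 * (N / (16 * P))) ≤ P * k := by nlinarith
    have h6 := Nat.le_of_mul_le_mul_left h5 hP
    omega
  · rw [Nat.le_div_iff_mul_le hP]
    calc k * P ≤ k * p := Nat.mul_le_mul_left k hp2.le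
      _ = p * k := mul_comm _ _
      _ ≤ 5 * N := h2

private theorem LfuX_Bs {N P H i : ℕ} (g : ℕ → ℝ) (hN : 0 < N) (hP : 0 < P) (h1 : N ≤ 4 * (i * H))
    (h2 : (i + 1) * H ≤ 5 * N) (α : ℝ) :
    Bs (Fp (cut (N / (16 * P)) (5 * N / P) g) P) H i α = Bs (Fp g P) H i α := by
  unfold Bs
  apply Finset.sum_congr rfl
  intro m hm
  rw [mem_Ico] at hm
  rw [LfuX_cut g hN hP (by omega) (by omega)]

open Classical in
private theorem LfuX_mem_badB (g : ℕ → ℝ) (N H : ℕ) (M : ℝ) (i : ℕ) : i ∈ badB g N H M ↔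
    i ∈ Icc (N / (2 * H)) (4 * N / H) ∧ ∃ α : ℝ, M < ‖Bs g H i α‖ := by
  unfold badB
  rw [Finset.mem_filter]

/-- the final contradiction -/
private theorem LfuX_end {L θ I : ℝ} {n H N k : ℕ} (hL : 100 ≤ L) (hθ : 0 < θ) (hN : 0 < N)
    (hNn : N ≤ 2 * (n * H)) (h1 : θ ^ 2 * ((n : ℝ) * H) ^ 2 / L ^ (k + 1) ≤ I)
    (h2 : I ≤ θ ^ 2 * (N : ℝ) ^ 2 / L ^ (k + 3)) : False := by
  have hL0 : 0 < L := by linarith
  have hNr : (0 : ℝ) < N := by exact_mod_cast hN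
  have h3 := h1.trans h2
  rw [div_le_div_iff₀ (by positivity) (by positivity)] at h3
  have e1 : L ^ (k + 3) = L ^ (k + 1) * L ^ 2 := by rw [← pow_add]
  rw [e1] at h3
  have h4 : (θ ^ 2 * L ^ (k + 1)) * (((n : ℝ) * H) ^ 2 * L ^ 2) ≤ (θ ^ 2 * L ^ (k + 1)) * (N : ℝ) ^ 2 := by
    linarith
  have h5 : ((n : ℝ) * H) ^ 2 * L ^ 2 ≤ (N : ℝ) ^ 2 := le_of_mul_le_mul_left h4 (by positivity)
  have h6 : (N : ℝ) ≤ 2 * (n * H) := by exact_mod_cast hNn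
  have h7 : (N : ℝ) ^ 2 ≤ 4 * ((n : ℝ) * H) ^ 2 := by
    have := pow_le_pow_left₀ hNr.le h6 2
    linarith
  have h8 : 0 < ((n : ℝ) * H) ^ 2 := by
    by_contra hcon
    have : (N : ℝ) ^ 2 ≤ 0 := by linarith
    have : 0 < (N : ℝ) ^ 2 := by positivity
    linarith
  have h9 : (10000 : ℝ) ≤ L ^ 2 := by nlinarith
  have h10 : ((n : ℝ) * H) ^ 2 * 10000 ≤ ((n : ℝ) * H) ^ 2 * L ^ 2 :=
    mul_le_mul_of_nonneg_left h9 h8.le
  linarith

/-- consequences of `P` being larger than all powers of the logarithm and of `Q` -/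
private theorem LfuX_num {L Q : ℝ} {A B C4 E N H P n R : ℕ} (hL : 100 ≤ L) (hQ : 1 ≤ Q)
    (hP : 10 * (L ^ E * Q ^ 60) ≤ P) (hE : E = 4 * B + 2 * A + C4 + 20) (hPH : P ^ 5 ≤ H)
    (hHN : H ^ 2 ≤ N) (hn : n = N / H) (hRB : (R : ℝ) ≤ L ^ B) :
    100 ≤ P ∧ 1000 ≤ n ∧ 8 ≤ H ∧ n * H ≤ N ∧ N ≤ 2 * (n * H) ∧
      2 * ((R ^ 4 + 2 : ℕ) : ℝ) * P * L ^ (A + 5) ≤ H ∧
      ((R ^ 4 + 2 : ℕ) : ℝ) * P * (2 * L ^ (A + 5) * Q ^ 20 * L ^ (A + 4)) ≤ H ∧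
      2 * L ^ (A + 5) * Q ^ 60 * (P : ℝ) ^ 3 ≤ H ∧
      2 * L ^ (A + 5) * Q ^ 20 * (n : ℝ) ^ 2 ≤ (N : ℝ) ^ 2 ∧
      (P : ℝ) * L ^ C4 * (n * (2 * L ^ (A + 5) * Q ^ 20 * L ^ (A + 3))) ≤ N ∧
      P * P ≤ N ∧ H ≤ n := by
  have hL1 : 1 ≤ L := by linarith
  have hL0 : 0 < L := by linarith
  have hQ0 : 0 < Q := by linarith
  have hpow : ∀ k j : ℕ, k ≤ E → j ≤ 60 → 10 * (L ^ k * Q ^ j) ≤ P := by
    intro k j hk hj
    refine le_trans ?_ hP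
    have h1 : L ^ k ≤ L ^ E := pow_le_pow_right₀ hL1 hk
    have h2 : Q ^ j ≤ Q ^ 60 := pow_le_pow_right₀ hQ hj
    have h3 : L ^ k * Q ^ j ≤ L ^ E * Q ^ 60 := mul_le_mul h1 h2 (by positivity) (by positivity)
    linarith
  have hP100r : (100 : ℝ) ≤ P := by
    have h1 := hpow 1 0 (by omega) (by omega)
    rw [pow_one, pow_zero, mul_one] at h1
    linarith
  have hP100 : 100 ≤ P := by exact_mod_cast hP100r
  have hP1 : (1 : ℝ) ≤ P := by linarith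
  have hPHr : (P : ℝ) ^ 5 ≤ H := by exact_mod_cast hPH
  have hP5 : P ≤ P ^ 5 := Nat.le_self_pow (by norm_num) P
  have hH0 : 0 < H := by omega
  have hP2 : 1000 ≤ P ^ 5 := by
    calc 1000 ≤ 100 ^ 5 := by norm_num
      _ ≤ P ^ 5 := Nat.pow_le_pow_left hP100 5
  have hH1000 : 1000 ≤ H := hP2.trans hPH
  have hHn : H ≤ n := by
    rw [hn, Nat.le_div_iff_mul_le hH0]
    calc H * H = H ^ 2 := by ring
      _ ≤ N := hHN
  have hnH : n * H ≤ N := by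
    rw [hn]
    exact Nat.div_mul_le_self N H
  have hnH2 : N < (n + 1) * H := by
    have := Nat.lt_mul_div_succ N hH0
    rw [← hn] at this
    rw [mul_comm]
    exact this
  have hNn : N ≤ 2 * (n * H) := by nlinarith
  have hw0 : ((R ^ 4 + 2 : ℕ) : ℝ) ≤ 3 * L ^ (4 * B) := by
    push_cast
    have h1 : (R : ℝ) ^ 4 ≤ (L ^ B) ^ 4 := pow_le_pow_left₀ (Nat.cast_nonneg R) hRB 4
    rw [← pow_mul, mul_comm B 4] at h1
    have h2 : (1 : ℝ) ≤ L ^ (4 * B) := one_le_pow₀ hL1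
    linarith
  have hw00 : (0 : ℝ) ≤ ((R ^ 4 + 2 : ℕ) : ℝ) := Nat.cast_nonneg _
  have hPP : ∀ x : ℝ, 0 ≤ x → x ≤ P → x * P ≤ (P : ℝ) ^ 5 := by
    intro x hx hxP
    have h1 : x * P ≤ P * P := mul_le_mul_of_nonneg_right hxP (by linarith)
    have h2 : (P : ℝ) ^ 2 ≤ (P : ℝ) ^ 5 := pow_le_pow_right₀ hP1 (by norm_num)
    nlinarith
  have hPH1 : (P : ℝ) ≤ H := by
    have : (P : ℝ) ≤ (P : ℝ) ^ 5 := le_self_pow₀ hP1 (by norm_num)
    linarith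
  refine ⟨hP100, hH1000.trans hHn, by omega, hnH, hNn, ?_, ?_, ?_, ?_, ?_, ?_, hHn⟩
  · have h1 := hpow (4 * B + (A + 5)) 0 (by omega) (by omega)
    rw [pow_add, pow_zero, mul_one] at h1
    have h2 : 2 * ((R ^ 4 + 2 : ℕ) : ℝ) * L ^ (A + 5) ≤ P := by
      have h3 : ((R ^ 4 + 2 : ℕ) : ℝ) * L ^ (A + 5) ≤ 3 * L ^ (4 * B) * L ^ (A + 5) :=
        mul_le_mul_of_nonneg_right hw0 (by positivity)
      have h4 : 0 ≤ L ^ (4 * B) * L ^ (A + 5) := by positivity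
      nlinarith
    have h5 := hPP _ (by positivity) h2
    calc 2 * ((R ^ 4 + 2 : ℕ) : ℝ) * P * L ^ (A + 5) = 2 * ((R ^ 4 + 2 : ℕ) : ℝ) * L ^ (A + 5) * P := by
          ring
      _ ≤ (P : ℝ) ^ 5 := h5
      _ ≤ H := hPHr
  · have h1 := hpow (4 * B + ((A + 5) + (A + 4))) 20 (by omega) (by omega)
    rw [pow_add, pow_add] at h1
    have h2 : ((R ^ 4 + 2 : ℕ) : ℝ) * (2 * L ^ (A + 5) * Q ^ 20 * L ^ (A + 4)) ≤ P := by
      have h3 : ((R ^ 4 + 2 : ℕ) : ℝ) * (2 * L ^ (A + 5) * Q ^ 20 * L ^ (A + 4)) ≤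
          3 * L ^ (4 * B) * (2 * L ^ (A + 5) * Q ^ 20 * L ^ (A + 4)) :=
        mul_le_mul_of_nonneg_right hw0 (by positivity)
      have h4 : 0 ≤ L ^ (4 * B) * (L ^ (A + 5) * L ^ (A + 4)) * Q ^ 20 := by positivity
      have h5 : 3 * L ^ (4 * B) * (2 * L ^ (A + 5) * Q ^ 20 * L ^ (A + 4)) =
          6 * (L ^ (4 * B) * (L ^ (A + 5) * L ^ (A + 4)) * Q ^ 20) := by ring
      linarith
    have h5 := hPP _ (by positivity) h2
    calc ((R ^ 4 + 2 : ℕ) : ℝ) * P * (2 * L ^ (A + 5) * Q ^ 20 * L ^ (A + 4)) =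
          ((R ^ 4 + 2 : ℕ) : ℝ) * (2 * L ^ (A + 5) * Q ^ 20 * L ^ (A + 4)) * P := by
          ring
      _ ≤ (P : ℝ) ^ 5 := h5
      _ ≤ H := hPHr
  · have h1 := hpow (A + 5) 60 (by omega) (by omega)
    have h2 : 2 * L ^ (A + 5) * Q ^ 60 ≤ P := by
      have : 0 ≤ L ^ (A + 5) * Q ^ 60 := by positivity
      linarith
    calc 2 * L ^ (A + 5) * Q ^ 60 * (P : ℝ) ^ 3 ≤ P * (P : ℝ) ^ 3 :=
          mul_le_mul_of_nonneg_right h2 (by positivity)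
      _ = (P : ℝ) ^ 4 := by ring
      _ ≤ (P : ℝ) ^ 5 := pow_le_pow_right₀ hP1 (by norm_num)
      _ ≤ H := hPHr
  · have h1 := hpow (A + 5) 20 (by omega) (by omega)
    have h2 : 2 * L ^ (A + 5) * Q ^ 20 ≤ P := by
      have : 0 ≤ L ^ (A + 5) * Q ^ 20 := by positivity
      linarith
    have h4 : (H : ℝ) ≤ (H : ℝ) ^ 2 := le_self_pow₀ (by linarith) (by norm_num)
    have h5 : ((n * H : ℕ) : ℝ) ≤ N := Nat.cast_le.mpr hnH
    rw [Nat.cast_mul] at h5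
    calc 2 * L ^ (A + 5) * Q ^ 20 * (n : ℝ) ^ 2 ≤ (H : ℝ) ^ 2 * (n : ℝ) ^ 2 :=
          mul_le_mul_of_nonneg_right (h2.trans (hPH1.trans h4)) (by positivity)
      _ = ((n : ℝ) * H) ^ 2 := by ring
      _ ≤ (N : ℝ) ^ 2 := pow_le_pow_left₀ (by positivity) h5 2
  · have h1 := hpow (C4 + ((A + 5) + (A + 3))) 20 (by omega) (by omega)
    rw [pow_add, pow_add] at h1
    have h2 : L ^ C4 * (2 * L ^ (A + 5) * Q ^ 20 * L ^ (A + 3)) ≤ P := by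
      have h4 : 0 ≤ L ^ C4 * (L ^ (A + 5) * L ^ (A + 3)) * Q ^ 20 := by positivity
      have h5 : L ^ C4 * (2 * L ^ (A + 5) * Q ^ 20 * L ^ (A + 3)) =
          2 * (L ^ C4 * (L ^ (A + 5) * L ^ (A + 3)) * Q ^ 20) := by ring
      linarith
    have h5 := hPP _ (by positivity) h2
    have h6 : ((n * H : ℕ) : ℝ) ≤ N := Nat.cast_le.mpr hnH
    rw [Nat.cast_mul] at h6
    calc (P : ℝ) * L ^ C4 * ((n : ℝ) * (2 * L ^ (A + 5) * Q ^ 20 * L ^ (A + 3))) =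
          (n : ℝ) * (L ^ C4 * (2 * L ^ (A + 5) * Q ^ 20 * L ^ (A + 3)) * P) := by ring
      _ ≤ (n : ℝ) * (H : ℝ) := mul_le_mul_of_nonneg_left (h5.trans hPHr) (Nat.cast_nonneg n)
      _ ≤ (N : ℝ) := h6
  · calc P * P = P ^ 2 := by ring
      _ ≤ P ^ 5 := Nat.pow_le_pow_right (by omega) (by norm_num)
      _ ≤ H := hPH
      _ ≤ H ^ 2 := Nat.le_self_pow (by norm_num) H
      _ ≤ N := hHN

/-- `n ≥ N^(1/4)` -/
private theorem LfuX_quarter {N H n : ℕ} (hN : 16 ≤ N) (h1 : N ≤ 2 * (n * H)) (h2 : H ≤ n) :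
    (N : ℝ) ^ (1 / 4 : ℝ) ≤ n := by
  have hNr : (16 : ℝ) ≤ N := by exact_mod_cast hN
  have h3 : N ≤ 2 * (n * n) := h1.trans (by nlinarith)
  have h4 : (N : ℝ) ≤ 2 * (n : ℝ) ^ 2 := by
    have : ((N : ℕ) : ℝ) ≤ ((2 * (n * n) : ℕ) : ℝ) := Nat.cast_le.mpr h3
    push_cast at this
    linarith
  have h5 : (N : ℝ) ≤ (n : ℝ) ^ 4 := by
    have h6 : (4 : ℝ) ≤ (n : ℝ) ^ 2 := by nlinarith
    nlinarith [sq_nonneg ((n : ℝ) ^ 2)]
  calc (N : ℝ) ^ (1 / 4 : ℝ) ≤ ((n : ℝ) ^ 4) ^ (1 / 4 : ℝ) :=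
        Real.rpow_le_rpow (by positivity) h5 (by norm_num)
    _ = n := by
      rw [← Real.rpow_natCast, ← Real.rpow_mul (Nat.cast_nonneg n)]
      norm_num

/-- `K2 ≥ N^(1/2)` -/
private theorem LfuX_half {N P : ℕ} (hN : 16 ≤ N) (hP : 0 < P) (h1 : P * P ≤ N) :
    (N : ℝ) ^ (1 / 2 : ℝ) ≤ ((5 * N / P : ℕ) : ℝ) := by
  rw [← Real.sqrt_eq_rpow]
  have hs : Real.sqrt N * Real.sqrt N = N := Real.mul_self_sqrt (Nat.cast_nonneg N)
  have hPr : (0 : ℝ) < P := by exact_mod_cast hP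
  have hPs : (P : ℝ) ≤ Real.sqrt N := by
    apply Real.le_sqrt_of_sq_le
    have : ((P * P : ℕ) : ℝ) ≤ N := Nat.cast_le.mpr h1
    push_cast at this
    nlinarith
  have hs1 : 1 ≤ Real.sqrt N := by
    apply Real.le_sqrt_of_sq_le
    have : (16 : ℝ) ≤ N := by exact_mod_cast hN
    linarith
  have h2 : 5 * N < (5 * N / P + 1) * P :=
    lt_of_lt_of_eq (Nat.lt_mul_div_succ (5 * N) hP) (mul_comm _ _)
  have h3 : 5 * (N : ℝ) < (((5 * N / P : ℕ) : ℝ) + 1) * P := by exact_mod_cast h2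
  have h4 : (Real.sqrt N + 1) * P ≤ 5 * N := by nlinarith
  have h5 : (Real.sqrt N + 1) * P < (((5 * N / P : ℕ) : ℝ) + 1) * P := lt_of_le_of_lt h4 h3
  have h6 := lt_of_mul_lt_mul_right h5 hPr.le
  linarith

/-- the growth condition -/
private theorem LfuX_small (t t2 : ℝ) (h02 : 0 < t2) (h2 : t2 < t) (E : ℕ) :
    ∀ᶠ N : ℕ in Filter.atTop, 10 * (Real.log N ^ E * Real.exp (Real.log N ^ t2) ^ 60) ≤
      Real.exp (Real.log N ^ t) := by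
  have ht : 0 < t := h02.trans h2
  have hlog : Filter.Tendsto (fun N : ℕ => Real.log N) Filter.atTop Filter.atTop :=
    Real.tendsto_log_atTop.comp tendsto_natCast_atTop_atTop
  have key : ∀ᶠ L : ℝ in Filter.atTop, 10 * (L ^ E * Real.exp (L ^ t2) ^ 60) ≤ Real.exp (L ^ t) := by
    have h3 : ∀ᶠ L : ℝ in Filter.atTop, 120 ≤ L ^ (t - t2) :=
      (tendsto_rpow_atTop (sub_pos.mpr h2)).eventually_ge_atTop 120
    have h4 := (isLittleO_log_rpow_atTop ht).def (c := 1 / (4 * (E + 1) : ℝ)) (by positivity)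
    have h5 : ∀ᶠ L : ℝ in Filter.atTop, 16 ≤ L ^ t := (tendsto_rpow_atTop ht).eventually_ge_atTop 16
    filter_upwards [h3, h4, h5, Filter.eventually_ge_atTop 1] with L h3 h4 h5 h6
    have hL0 : 0 < L := by linarith
    have hLt : 0 < L ^ t := Real.rpow_pos_of_pos hL0 t
    have hLt2 : 0 < L ^ t2 := Real.rpow_pos_of_pos hL0 t2
    have h33 : L ^ t = L ^ (t - t2) * L ^ t2 := by
      rw [← Real.rpow_add hL0]
      congr 1
      ring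
    have h34 : 120 * L ^ t2 ≤ L ^ t := by
      rw [h33]
      exact mul_le_mul_of_nonneg_right h3 hLt2.le
    rw [Real.norm_of_nonneg (Real.log_nonneg h6), Real.norm_of_nonneg hLt.le] at h4
    have h7 : L ^ E = Real.exp (E * Real.log L) := by
      rw [mul_comm, Real.exp_mul, Real.exp_log hL0, Real.rpow_natCast]
    have h8 : Real.exp (L ^ t2) ^ 60 = Real.exp (60 * L ^ t2) := by
      rw [← Real.exp_nat_mul]
      norm_num
    have h9 : (10 : ℝ) ≤ Real.exp 3 := by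
      have h10 : (2.7 : ℝ) ≤ Real.exp 1 := by
        have := Real.exp_one_gt_d9
        linarith
      have h11 : Real.exp 3 = Real.exp 1 ^ 3 := by
        rw [← Real.exp_nat_mul]
        norm_num
      rw [h11]
      calc (10 : ℝ) ≤ 2.7 ^ 3 := by norm_num
        _ ≤ Real.exp 1 ^ 3 := pow_le_pow_left₀ (by norm_num) h10 3
    have h12 : E * Real.log L ≤ L ^ t / 4 := by
      have hE1 : (0 : ℝ) < 4 * (E + 1) := by positivity
      rw [one_div_mul_eq_div, le_div_iff₀ hE1] at h4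
      have h13 : 0 ≤ Real.log L := Real.log_nonneg h6
      nlinarith
    calc 10 * (L ^ E * Real.exp (L ^ t2) ^ 60)
        ≤ Real.exp 3 * (L ^ E * Real.exp (L ^ t2) ^ 60) := by
          apply mul_le_mul_of_nonneg_right h9
          positivity
      _ = Real.exp (3 + (E * Real.log L + 60 * L ^ t2)) := by
          rw [h7, h8, Real.exp_add, Real.exp_add]
      _ ≤ Real.exp (L ^ t) := by
          apply Real.exp_le_exp.mpr
          linarith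
  exact hlog.eventually key

theorem lfu_x (t t1 t2 : ℝ) (h01 : 0 < t1) (h1 : t1 < t) (ht : t < 1) (h02 : 0 < t2) (h2 : t2 < t) (hVK : VKw t1)
    (hSW : SWp) (hCX : CombX t t2) (A : ℕ) : ∃ B0 : ℕ, ∀ B : ℕ, B0 ≤ B → ∃ N0 : ℕ,
    ∀ N : ℕ, N0 ≤ N → ∀ H P : ℕ, Real.exp (Real.log N ^ t) ≤ P → P ^ 5 ≤ H → H ^ 2 ≤ N →
    ((badB (Fp (hR ⌊Real.log N ^ B⌋₊) P) N H (H / Real.log N ^ A)).card : ℝ) ≤ (N / H : ℝ) / Real.log N ^ A := by
  obtain ⟨C0, hC0⟩ : ∃ C0, C0 = 5 * A + 14 := ⟨_, rfl⟩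
  obtain ⟨C1, N3, hcomb⟩ := hCX 30 (by norm_num) C0
  obtain ⟨C4, hms⟩ := ms_w t1 t h01 h1 hVK hSW (2 * A + 2 * C1 + 3) C1
  obtain ⟨L0, hL0, hcon⟩ := contra_q 10 (by norm_num) A C1
  refine ⟨C1, fun B hB => ?_⟩
  obtain ⟨N1, hms1⟩ := hms B hB
  obtain ⟨N2, hsq2⟩ := hsq B
  obtain ⟨E, hE⟩ : ∃ E, E = 4 * B + 2 * A + C4 + 20 := ⟨_, rfl⟩
  have hlog : Filter.Tendsto (fun N : ℕ => Real.log N) Filter.atTop Filter.atTop :=
    Real.tendsto_log_atTop.comp tendsto_natCast_atTop_atTop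
  obtain ⟨N0, hN0⟩ := Filter.eventually_atTop.mp ((LfuX_small t t2 h02 h2 E).and
    ((hlog.eventually_ge_atTop (max 100 L0)).and
    (Filter.eventually_ge_atTop (max (max N1 N3) (max N2 100)))))
  refine ⟨N0, fun N hN H P hP1 hPH hHN => ?_⟩
  obtain ⟨hP2, hLL, hNN⟩ := hN0 N hN
  have hL100 : 100 ≤ Real.log N := le_trans (le_max_left _ _) hLL
  have hLL0 : L0 ≤ Real.log N := le_trans (le_max_right _ _) hLL
  have hNN1 : N1 ≤ N := le_trans (le_trans (le_max_left _ _) (le_max_left _ _)) hNN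
  have hNN3 : N3 ≤ N := le_trans (le_trans (le_max_right _ _) (le_max_left _ _)) hNN
  have hNN2 : N2 ≤ N := le_trans (le_trans (le_max_left _ _) (le_max_right _ _)) hNN
  have hN100 : 100 ≤ N := le_trans (le_trans (le_max_right _ _) (le_max_right _ _)) hNN
  have hms2 := hms1 N hNN1
  have hsq3 := hsq2 N hNN2
  have hcomb2 := hcomb N hNN3
  obtain ⟨L, hL⟩ : ∃ L, L = Real.log N := ⟨_, rfl⟩
  rw [← hL] at hP1 hP2 hL100 hLL0 hms2 hsq3 hcomb2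
  rw [← hL]
  obtain ⟨Q, hQ⟩ : ∃ Q, Q = Real.exp (L ^ t2) := ⟨_, rfl⟩
  rw [← hQ] at hP2 hcomb2
  have hNpos : 0 < N := by omega
  have hNr : (100 : ℝ) ≤ N := by exact_mod_cast hN100
  have hL1 : 1 ≤ L := by linarith
  have hLpos : 0 < L := by linarith
  have hQ1 : 1 ≤ Q := by
    rw [hQ]
    exact Real.one_le_exp (Real.rpow_nonneg hLpos.le t2)
  have hQ0 : 0 < Q := by linarith
  obtain ⟨R, hRdef⟩ : ∃ R, R = ⌊L ^ B⌋₊ := ⟨_, rfl⟩
  rw [← hRdef] at hms2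
  rw [← hRdef]
  have hRB : (R : ℝ) ≤ L ^ B := by
    rw [hRdef]
    exact Nat.floor_le (by positivity)
  obtain ⟨n, hn⟩ : ∃ n, n = N / H := ⟨_, rfl⟩
  obtain ⟨hP100, hn1000, hH8, hnH, hNn, hw1, hw2, hη3, hT2, hθN, hPP, hHn⟩ :=
    LfuX_num hL100 hQ1 (hP2.trans hP1) hE hPH hHN hn hRB
  obtain ⟨Q2, hQ2⟩ : ∃ Q2, Q2 = 2 * L ^ (A + 5) * Q ^ 20 := ⟨_, rfl⟩
  rw [← hQ2] at hw2 hT2 hθN
  have hA5 : 1 ≤ L ^ (A + 5) := one_le_pow₀ hL1
  have hQ21 : 1 ≤ Q2 := by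
    rw [hQ2]
    have : 1 ≤ Q ^ 20 := one_le_pow₀ hQ1
    nlinarith
  have hPpos : 0 < P := by omega
  have hHpos : 0 < H := by omega
  have hHr : (0 : ℝ) < H := by exact_mod_cast hHpos
  by_contra hbad
  push Not at hbad
  obtain ⟨F0, hF0⟩ : ∃ F0, F0 = badB (Fp (hR R) P) N H (H / L ^ A) := ⟨_, rfl⟩
  rw [← hF0] at hbad
  have hmemF : ∀ i ∈ F0, i ∈ Icc (N / (2 * H)) (4 * N / H) ∧
      ∃ α : ℝ, H / L ^ A < ‖Bs (Fp (hR R) P) H i α‖ := by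
    intro i hi
    rw [hF0] at hi
    exact (LfuX_mem_badB _ _ _ _ _).mp hi
  choose! α hα using fun i hi => (hmemF i hi).2
  obtain ⟨f, hf⟩ : ∃ f, f = cut (N / (16 * P)) (5 * N / P) (hR R) := ⟨_, rfl⟩
  have hrange := fun i hi => LfuX_range hH8 hHN (hmemF i hi).1
  rw [← hn] at hrange
  have hbig : ∀ i ∈ F0, H / L ^ A ≤ ‖Bs (Fp f P) H i (α i)‖ := by
    intro i hi
    obtain ⟨-, -, h3, h4⟩ := hrange i hi
    rw [hf, LfuX_Bs (hR R) hNpos hPpos h3 h4]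
    exact (hα i hi).le
  have hSq : SqB f (R ^ 4 + 2) (N ^ 4) L := by
    rw [hf]
    exact hsq3 R hRB _ _
  have hN4 : N ≤ N ^ 4 := Nat.le_self_pow (by norm_num) N
  have hnHr : (n : ℝ) * H ≤ N := by exact_mod_cast hnH
  have hX : 8 * 10 * (n : ℝ) * H ≤ ((N ^ 4 : ℕ) : ℝ) := by
    push_cast
    have h1 : 100 * (N : ℝ) ≤ (N : ℝ) ^ 4 := by
      have h2 : (N : ℝ) ^ 4 = N ^ 2 * (N * N) := by ring
      rw [h2]
      have h3 : (1 : ℝ) ≤ N ^ 2 := one_le_pow₀ (by linarith)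
      have h4 : 100 * (N : ℝ) ≤ N * N := by nlinarith
      nlinarith
    linarith
  have hcard : n / L ^ A ≤ (F0.card : ℝ) := by
    refine le_trans ?_ hbad.le
    apply div_le_div_of_nonneg_right _ (by positivity)
    rw [le_div_iff₀ hHr]
    exact hnHr
  have hn1000r : (1000 : ℝ) ≤ n := by exact_mod_cast hn1000
  have hnN : n ≤ N := by
    rw [hn]
    exact Nat.div_le_self N H
  have hPN : P ≤ N := by nlinarith
  obtain ⟨G0, β, R0, hRel, hR0⟩ := base 10 (by norm_num) A L n H P (R ^ 4 + 2) (N ^ 4) f F0 α hL100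
    (by linarith) (by omega) (by omega) hw1 hSq hX (fun i hi => ⟨(hrange i hi).1, (hrange i hi).2.1⟩)
    hcard hbig
  rw [← hC0] at hR0
  obtain ⟨η, hη⟩ : ∃ η, η = 2 * L ^ (A + 5) / H := ⟨_, rfl⟩
  have h30 : (3 : ℝ) * 10 = 30 := by norm_num
  rw [h30, ← hη] at hRel
  have hη1 : 0 < η := by rw [hη]; positivity
  have hη0 : 0 ≤ η := hη1.le
  have hηH : η * H = 2 * L ^ (A + 5) := by
    rw [hη]
    field_simp
  obtain ⟨d, b, T, F1, hd1, hdL, hT1, hF1, hF1L, hnz⟩ := hcomb2 n P η F0 G0 α β R0 hP1 hPN hnN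
    (LfuX_quarter (by omega) hNn hHn) hη1
    (by
      rw [hη]
      have h1 : 2 * L ^ (A + 5) / H * Q ^ 60 * (P : ℝ) ^ 3 =
          (2 * L ^ (A + 5) * Q ^ 60 * (P : ℝ) ^ 3) / H := by ring
      rw [h1, div_le_one hHr]
      exact hη3)
    hRel hR0
  have hTL : |T * H| ≤ Q2 * (n : ℝ) ^ 2 := by
    rw [abs_mul, abs_of_pos hHr]
    calc |T| * H ≤ Q ^ 20 * η * (n : ℝ) ^ 2 * H := mul_le_mul_of_nonneg_right hT1 hHr.le
      _ = Q ^ 20 * (η * H) * (n : ℝ) ^ 2 := by ring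
      _ = Q2 * (n : ℝ) ^ 2 := by
        rw [hηH, hQ2]
        ring
  have hnzQ : Q ^ 13 * η ≤ Q2 / H := by
    rw [le_div_iff₀ hHr]
    calc Q ^ 13 * η * H = Q ^ 13 * (η * H) := by ring
      _ = Q ^ 13 * (2 * L ^ (A + 5)) := by rw [hηH]
      _ ≤ Q ^ 20 * (2 * L ^ (A + 5)) :=
        mul_le_mul_of_nonneg_right (pow_le_pow_right₀ hQ1 (by norm_num)) (by positivity)
      _ = Q2 := by
        rw [hQ2]
        ring
  obtain ⟨θ, hθ⟩ : ∃ θ, θ = 1 / ((n : ℝ) * (Q2 * L ^ (A + 3))) := ⟨_, rfl⟩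
  have hθden : (0 : ℝ) < n * (Q2 * L ^ (A + 3)) := by positivity
  have hθ0 : 0 < θ := by rw [hθ]; positivity
  have hK2P : 5 * N / P * P ≤ 5 * N := Nat.div_mul_le_self _ _
  have hPK2 : P ≤ 5 * N / P := by
    rw [Nat.le_div_iff_mul_le hPpos]
    omega
  obtain ⟨hint, hle⟩ := hms2 P (N / (16 * P)) (5 * N / P) (60 * N) d b (T * H) θ hP1
    hPN hd1 hdL (hTL.trans hT2)
    (LfuX_half (by omega) hPpos hPP)
    (by
      rw [Nat.div_le_iff_le_mul_add_pred hPpos]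
      nlinarith)
    (by omega)
    (by
      have : 2 * P * (5 * N / P) = 2 * (5 * N / P * P) := by ring
      omega)
    (by omega) (by omega) hθ0
    (by
      rw [hθ, div_le_one hθden]
      have h1 : (1 : ℝ) ≤ L ^ (A + 3) := one_le_pow₀ hL1
      have h2 : (1 : ℝ) ≤ Q2 * L ^ (A + 3) := by nlinarith
      nlinarith)
    (by
      rw [hθ, one_div_mul_eq_div, le_div_iff₀ hθden]
      exact hθN)
  rw [← hf] at hint hle
  have hcon3 := hcon L Q2 n H P (R ^ 4 + 2) (60 * N) (N ^ 4) f ((b : ℝ) / d) (T * H) F1 α hLL0 hQ21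
    (by linarith) (by omega) (by omega) hw2 hSq hX
    (by
      push_cast
      linarith)
    (fun i hi => ⟨(hrange i (hF1 hi)).1, (hrange i (hF1 hi)).2.1⟩)
    hF1L hTL
    (fun i hi => by
      have h2 : T * H / ((i : ℝ) * H) = T / i := mul_div_mul_right _ _ hHr.ne'
      rw [h2]
      exact (hnz i hi).trans hnzQ)
    (fun i hi => hbig i (hF1 hi))
    (by
      rw [← hθ]
      exact hint)
  rw [← hθ] at hcon3
  exact LfuX_end hL100 hθ0 hNpos hNn hcon3 hle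

end Pool.Agent.H53.MIX
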