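import Pool.Agent.H53.MID.GDefs

/-!
# MIX Defs: hypotheses of the strengthened theorem (windows `exp((log N)^θ)`)

* `VKw t1`: Vinogradov-Korobov for sums over residue classes, `z ≥ exp((log x)^t1)`;
* `VKe t0`: exponential sums over integers, `K ≥ exp((log x)^t0)`;
* `CombX t t2`: the combinatorial theorem with the boost (project MIDX of helper74): `P ≥ exp((log N)^t)`, `Q = exp((log N)^t2)`.
-/

set_option autoImplicit false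

namespace Pool.Agent.H53.MIX

open Finset
open Pool.Agent.H91.PK (ee)
open Pool.Agent.H91.EHA (Lam hR lamR ramS)
open Pool.Agent.H53.MID

/-- Vinogradov-Korobov for `Λ` in residue classes -/
def VKw (t1 : ℝ) : Prop := ∀ (K B : ℕ), ∃ K' x0 : ℕ, ∀ x : ℕ, x0 ≤ x →
  ∀ (d u z : ℕ) (t : ℝ), 1 ≤ d → (d : ℝ) ≤ Real.log x ^ B → Real.exp (Real.log x ^ t1) ≤ z → z ≤ x ^ 2 →
    Real.log x ^ K' ≤ |t| → |t| ≤ (x : ℝ) ^ (2 : ℕ) →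
    ‖∑ n ∈ (Icc 1 z).filter (fun n => n % d = u % d), ((Lam n : ℝ) : ℂ) * ee (t * Real.log n)‖
      ≤ z / Real.log x ^ K

/-- exponential sums `∑ (n+β)^{2πit}` over intervals in `[0, K]`, `K ≥ exp((log x)^t0)` -/
def VKe (t0 : ℝ) : Prop := ∀ A : ℕ, ∃ x0 : ℕ, ∀ x : ℕ, x0 ≤ x → ∀ (K a b : ℕ) (β t : ℝ),
  Real.exp (Real.log x ^ t0) ≤ K → K ≤ x → b ≤ K → 0 ≤ β → β ≤ 1 → 1 ≤ |t| → |t| ≤ (x : ℝ) ^ (3 : ℕ) →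
    ‖∑ n ∈ Ioc a b, ee (t * Real.log (n + β))‖ ≤ K * (100 / |t| + 1 / Real.log x ^ A)

/-- the combinatorial theorem with the boost -/
def CombX (t t2 : ℝ) : Prop := ∀ (C : ℝ), 1 ≤ C → ∀ C0 : ℕ, ∃ C1 N0 : ℕ, ∀ N : ℕ, N0 ≤ N →
  ∀ (n P : ℕ) (η : ℝ) (F0 G0 : Finset ℕ) (α β : ℕ → ℝ) (R0 : Finset (ℕ × ℕ × ℕ)),
    Real.exp (Real.log N ^ t) ≤ P → P ≤ N → n ≤ N → (N : ℝ) ^ (1 / 4 : ℝ) ≤ n → 0 < η →
    η * Real.exp (Real.log N ^ t2) ^ 60 * (P : ℝ) ^ 3 ≤ 1 → Rel C n P (η * P) F0 G0 α β R0 →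
    n * P / Real.log N ^ C0 ≤ (R0.card : ℝ) →
    ∃ (d b : ℕ) (T : ℝ) (F1 : Finset ℕ), 1 ≤ d ∧ (d : ℝ) ≤ Real.log N ^ C1 ∧
      |T| ≤ Real.exp (Real.log N ^ t2) ^ 20 * η * (n : ℝ) ^ 2 ∧ F1 ⊆ F0 ∧ n / Real.log N ^ C1 ≤ (F1.card : ℝ) ∧
      ∀ i ∈ F1, nz (α i - b / d - T / i) ≤ Real.exp (Real.log N ^ t2) ^ 13 * η

end Pool.Agent.H53.MIX
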