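import Pool.Agent.H53.MIX.LfuX
import Pool.Agent.H53.MID.E1Small

/-!
# MIX E1X: `F1 Lam - W1 lamR` is small on almost all blocks, `Q ≥ exp((log N)^t)`

Copy and adapt `Pool.Agent.H53.MID.e1_small` (file `H53/MID/E1Small.lean`, complete), using `lfu_x`.
-/

set_option autoImplicit false

namespace Pool.Agent.H53.MIX

open Finset
open Pool.Agent.H91.EHA (Lam hR lamR ramS)
open Pool.Agent.H53.MID

private theorem E1X_small (t : ℝ) (ht : 0 < t) (n : ℕ) : ∀ᶠ x : ℝ in Filter.atTop,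
    200 * x ^ n ≤ Real.exp (x ^ t) := by
  have h1 := (isLittleO_log_rpow_atTop ht).def (c := 1 / (2 * (n + 1))) (by positivity)
  have h2 := (tendsto_rpow_atTop ht).eventually_ge_atTop (2 * Real.log 200)
  filter_upwards [h1, h2, Filter.eventually_ge_atTop (1 : ℝ)] with x h1 h2 hx
  have hx0 : 0 < x := by linarith
  have hl0 : 0 ≤ Real.log x := Real.log_nonneg hx
  have hxt : 0 ≤ x ^ t := Real.rpow_nonneg hx0.le _
  rw [Real.norm_eq_abs, Real.norm_eq_abs, abs_of_nonneg hl0, abs_of_nonneg hxt,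
    one_div_mul_eq_div, le_div_iff₀ (by positivity)] at h1
  have h3 : 200 * x ^ n = Real.exp (Real.log 200 + n * Real.log x) := by
    rw [Real.exp_add, Real.exp_log (by norm_num), mul_comm (n : ℝ), Real.exp_mul,
      Real.exp_log hx0, Real.rpow_natCast]
  rw [h3]
  apply Real.exp_le_exp.2
  nlinarith

open Classical in
private theorem E1X_mem (g : ℕ → ℝ) (N H : ℕ) (M : ℝ) (i : ℕ) : i ∈ badB g N H M ↔
    i ∈ Icc (N / (2 * H)) (4 * N / H) ∧ ∃ α : ℝ, M < ‖Bs g H i α‖ := by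
  unfold badB
  rw [Finset.mem_filter]

private theorem E1X_lin (Q J R H i : ℕ) (α : ℝ) :
    Bs (fun m => F1 Lam Q J m - W1 Q J * lamR R m) H i α =
      ∑ j ∈ range J, (Bs (Fp (hR R) (2 ^ j * Q)) H i α +
        Bs (fun m => Fp (lamR R) (2 ^ j * Q) m - W2 (2 ^ j * Q) * lamR R m) H i α) := by
  unfold Bs
  have h1 : ∀ j ∈ range J, (∑ m ∈ Ico (i * H) ((i + 1) * H),
      ((Fp (hR R) (2 ^ j * Q) m : ℝ) : ℂ) * Pool.Agent.H91.PK.ee (-(m * α)) +
        ∑ m ∈ Ico (i * H) ((i + 1) * H),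
          ((Fp (lamR R) (2 ^ j * Q) m - W2 (2 ^ j * Q) * lamR R m : ℝ) : ℂ) * Pool.Agent.H91.PK.ee (-(m * α))) =
      ∑ m ∈ Ico (i * H) ((i + 1) * H),
        ((Fp Lam (2 ^ j * Q) m - W2 (2 ^ j * Q) * lamR R m : ℝ) : ℂ) * Pool.Agent.H91.PK.ee (-(m * α)) := by
    intro j _
    rw [← Finset.sum_add_distrib]
    apply Finset.sum_congr rfl
    intro m _
    rw [fp_split R (2 ^ j * Q) m]
    push_cast
    ring
  rw [Finset.sum_congr rfl h1, Finset.sum_comm]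
  apply Finset.sum_congr rfl
  intro m _
  rw [← Finset.sum_mul]
  congr 1
  unfold F1 W1
  push_cast
  rw [Finset.sum_sub_distrib, Finset.sum_mul]

/-- consequences of the sizes -/
private theorem E1X_num {L : ℝ} {N H Q J : ℕ} (hL : L = Real.log N) (hQ2 : 2 ≤ Q)
    (hPH : (2 ^ J * Q) ^ 5 ≤ H) (hHN : H ^ 2 ≤ N) :
    (J : ℝ) ≤ L ∧ 1 ≤ N / (2 * H) := by
  have hP1 : 1 ≤ 2 ^ J * Q := Nat.one_le_iff_ne_zero.2 (by positivity)
  have hP2 : 2 ≤ 2 ^ J * Q := hQ2.trans (Nat.le_mul_of_pos_left Q (by positivity))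
  have hH2 : 2 ≤ H := by
    calc 2 ≤ 2 ^ J * Q := hP2
      _ ≤ (2 ^ J * Q) ^ 5 := Nat.le_self_pow (by norm_num) _
      _ ≤ H := hPH
  have hN : 2 * H ≤ N := by nlinarith
  refine ⟨?_, (Nat.one_le_div_iff (by omega)).2 hN⟩
  have h1 : (2 ^ J) ^ 2 ≤ N := by
    calc (2 ^ J) ^ 2 ≤ (2 ^ J * Q) ^ 2 :=
          Nat.pow_le_pow_left (Nat.le_mul_of_pos_right _ (by omega)) 2
      _ ≤ ((2 ^ J * Q) ^ 5) ^ 2 := Nat.pow_le_pow_left (Nat.le_self_pow (by norm_num) _) 2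
      _ ≤ H ^ 2 := Nat.pow_le_pow_left hPH 2
      _ ≤ N := hHN
  have h2 : (((2 : ℝ) ^ J) ^ 2) ≤ N := by exact_mod_cast h1
  have h3 : Real.log (((2 : ℝ) ^ J) ^ 2) ≤ Real.log N := Real.log_le_log (by positivity) h2
  rw [Real.log_pow, Real.log_pow] at h3
  have h4 := Real.log_two_gt_d9
  have h5 : (0 : ℝ) ≤ J := Nat.cast_nonneg J
  rw [hL]
  push_cast at h3
  nlinarith

theorem e1_small_x (t t1 t2 : ℝ) (h01 : 0 < t1) (h1 : t1 < t) (ht : t < 1) (h02 : 0 < t2) (h2 : t2 < t) (hVK : VKw t1)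
    (hSW : SWp) (hCX : CombX t t2) (A : ℕ) : ∃ B0 : ℕ, ∀ B : ℕ, B0 ≤ B → ∃ N0 : ℕ,
    ∀ N : ℕ, N0 ≤ N → ∀ H Q J : ℕ, Real.exp (Real.log N ^ t) ≤ Q → (2 ^ J * Q) ^ 5 ≤ H → H ^ 2 ≤ N →
    ((badB (fun m => F1 Lam Q J m - W1 Q J * lamR ⌊Real.log N ^ B⌋₊ m) N H (H / Real.log N ^ A)).card : ℝ)
      ≤ (N / H : ℝ) / Real.log N ^ A := by
  obtain ⟨B0, hB0⟩ := lfu_x t t1 t2 h01 h1 ht h02 h2 hVK hSW hCX (A + 2)
  refine ⟨B0, fun B hB => ?_⟩
  obtain ⟨N1, hN1⟩ := hB0 B hB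
  have hlog : Filter.Tendsto (fun N : ℕ => Real.log N) Filter.atTop Filter.atTop :=
    Real.tendsto_log_atTop.comp tendsto_natCast_atTop_atTop
  have hsmall : ∀ᶠ N : ℕ in Filter.atTop,
      200 * Real.log N ^ (A + B + 1) ≤ Real.exp (Real.log N ^ t) :=
    hlog.eventually (E1X_small t (h01.trans h1) (A + B + 1))
  obtain ⟨N2, hN2⟩ := Filter.eventually_atTop.1 (hsmall.and (hlog.eventually_ge_atTop 2))
  refine ⟨max N1 N2, fun N hN H Q J hQ hPH hHN => ?_⟩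
  have hlfu := hN1 N ((le_max_left _ _).trans hN) H
  obtain ⟨hs1, hs2⟩ := hN2 N ((le_max_right _ _).trans hN)
  clear hN1 hN2
  set L : ℝ := Real.log N with hLdef
  set R : ℕ := ⌊L ^ B⌋₊ with hRdef
  have hL0 : 0 < L := by linarith
  have hL1 : 1 ≤ L := by linarith
  have hRB : (R : ℝ) ≤ L ^ B := Nat.floor_le (by positivity)
  have hQr : 200 * L ^ (A + B + 1) ≤ Q := hs1.trans hQ
  have hpow1 : L ^ B ≤ L ^ (A + B + 1) := pow_le_pow_right₀ hL1 (by omega)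
  have hLB1 : 1 ≤ L ^ B := one_le_pow₀ hL1
  have hQ200 : (200 : ℝ) ≤ Q := by nlinarith
  have hQ2 : 2 ≤ Q := by
    have : 200 ≤ Q := by exact_mod_cast hQ200
    omega
  have hRQ : R < Q := by
    have h1 : (R : ℝ) < Q := by nlinarith
    exact_mod_cast h1
  obtain ⟨hJL, hNH⟩ := E1X_num (J := J) hLdef hQ2 hPH hHN
  have hH0 : (0 : ℝ) < H := by
    have h1 : 0 < (2 ^ J * Q) ^ 5 := by positivity
    exact_mod_cast (lt_of_lt_of_le h1 hPH)
  have hQ0 : (0 : ℝ) < Q := by linarith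
  have hPj : ∀ j ∈ range J, Q ≤ 2 ^ j * Q ∧ 2 ^ j * Q ≤ 2 ^ J * Q := by
    intro j hj
    exact ⟨Nat.le_mul_of_pos_left Q (by positivity),
      Nat.mul_le_mul_right Q (Nat.pow_le_pow_right (by norm_num) (Finset.mem_range.1 hj).le)⟩
  -- the inclusion
  have hsub : badB (fun m => F1 Lam Q J m - W1 Q J * lamR R m) N H (H / L ^ A) ⊆
      (range J).biUnion (fun j => badB (Fp (hR R) (2 ^ j * Q)) N H (H / L ^ (A + 2))) := by
    intro i hi
    rw [E1X_mem] at hi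
    obtain ⟨hi1, α, hα⟩ := hi
    by_contra hcon
    rw [Finset.mem_biUnion] at hcon
    have h1 : ∀ j ∈ range J, ‖Bs (Fp (hR R) (2 ^ j * Q)) H i α‖ ≤ H / L ^ (A + 2) := by
      intro j hj
      by_contra h2
      exact hcon ⟨j, hj, (E1X_mem _ _ _ _ _).2 ⟨hi1, α, not_le.1 h2⟩⟩
    have hi0 : 1 ≤ i := hNH.trans (Finset.mem_Icc.1 hi1).1
    have h2 : ∀ j ∈ range J,
        ‖Bs (fun m => Fp (lamR R) (2 ^ j * Q) m - W2 (2 ^ j * Q) * lamR R m) H i α‖ ≤
          100 * R * H / Q := by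
      intro j hj
      obtain ⟨h3, h4⟩ := hPj j hj
      have h5 : (2 ^ j * Q) ^ 3 ≤ H := by
        calc (2 ^ j * Q) ^ 3 ≤ (2 ^ j * Q) ^ 5 := Nat.pow_le_pow_right (by omega) (by norm_num)
          _ ≤ (2 ^ J * Q) ^ 5 := Nat.pow_le_pow_left h4 5
          _ ≤ H := hPH
      refine (omw (2 ^ j * Q) R H i α (lt_of_lt_of_le hRQ h3) (hQ2.trans h3) h5 hi0).trans ?_
      apply div_le_div_of_nonneg_left (by positivity) hQ0
      exact_mod_cast h3
    rw [E1X_lin] at hα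
    have h3 : ‖∑ j ∈ range J, (Bs (Fp (hR R) (2 ^ j * Q)) H i α +
        Bs (fun m => Fp (lamR R) (2 ^ j * Q) m - W2 (2 ^ j * Q) * lamR R m) H i α)‖ ≤
          ∑ j ∈ range J, ((H : ℝ) / L ^ (A + 2) + 100 * R * H / Q) := by
      refine (norm_sum_le _ _).trans (Finset.sum_le_sum fun j hj => ?_)
      exact (norm_add_le _ _).trans (add_le_add (h1 j hj) (h2 j hj))
    rw [Finset.sum_const, Finset.card_range, nsmul_eq_mul] at h3
    have h4 : (J : ℝ) * ((H : ℝ) / L ^ (A + 2) + 100 * R * H / Q) ≤ H / L ^ A := by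
      have h5 : (J : ℝ) * ((H : ℝ) / L ^ (A + 2)) ≤ H / L ^ A / 2 := by
        have h6 : (J : ℝ) * ((H : ℝ) / L ^ (A + 2)) ≤ L * ((H : ℝ) / L ^ (A + 2)) :=
          mul_le_mul_of_nonneg_right hJL (by positivity)
        refine h6.trans ?_
        have h7 : L * ((H : ℝ) / L ^ (A + 2)) = H / L ^ A / L := by
          rw [pow_add]
          field_simp
        rw [h7]
        exact div_le_div_of_nonneg_left (by positivity) (by norm_num) hs2
      have h6 : (J : ℝ) * (100 * R * H / Q) ≤ H / L ^ A / 2 := by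
        have h7 : (J : ℝ) * (100 * R * H / Q) ≤ L * (100 * L ^ B * H / Q) := by
          apply mul_le_mul hJL _ (by positivity) (by positivity)
          apply div_le_div_of_nonneg_right _ hQ0.le
          apply mul_le_mul_of_nonneg_right _ hH0.le
          exact mul_le_mul_of_nonneg_left hRB (by norm_num)
        refine h7.trans ?_
        rw [div_div, ← mul_div_assoc, div_le_div_iff₀ hQ0 (by positivity)]
        have h8 : L * (100 * L ^ B * H) * (L ^ A * 2) = H * (200 * L ^ (A + B + 1)) := by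
          ring
        rw [h8]
        exact mul_le_mul_of_nonneg_left hQr hH0.le
      rw [mul_add]
      linarith
    linarith
  have hcard : ((badB (fun m => F1 Lam Q J m - W1 Q J * lamR R m) N H (H / L ^ A)).card : ℝ) ≤
      ∑ j ∈ range J, ((badB (Fp (hR R) (2 ^ j * Q)) N H (H / L ^ (A + 2))).card : ℝ) := by
    have h1 := (Finset.card_le_card hsub).trans Finset.card_biUnion_le
    exact_mod_cast h1
  refine hcard.trans ?_
  have h1 : ∀ j ∈ range J, ((badB (Fp (hR R) (2 ^ j * Q)) N H (H / L ^ (A + 2))).card : ℝ) ≤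
      (N / H : ℝ) / L ^ (A + 2) := by
    intro j hj
    obtain ⟨h3, h4⟩ := hPj j hj
    apply hlfu (2 ^ j * Q) _ ((Nat.pow_le_pow_left h4 5).trans hPH) hHN
    refine hQ.trans ?_
    exact_mod_cast h3
  refine (Finset.sum_le_sum h1).trans ?_
  rw [Finset.sum_const, Finset.card_range, nsmul_eq_mul]
  have h2 : (J : ℝ) * ((N / H : ℝ) / L ^ (A + 2)) ≤ L * ((N / H : ℝ) / L ^ (A + 2)) :=
    mul_le_mul_of_nonneg_right hJL (by positivity)
  refine h2.trans ?_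
  have h3 : L * ((N / H : ℝ) / L ^ (A + 2)) = (N / H : ℝ) / L ^ (A + 1) := by
    rw [show A + 2 = (A + 1) + 1 from rfl, pow_succ]
    field_simp
  rw [h3]
  exact div_le_div_of_nonneg_left (by positivity) (by positivity)
    (pow_le_pow_right₀ hL1 (by omega))

end Pool.Agent.H53.MIX
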