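import Pool.Agent.H53.MIX.Defs
import Pool.Agent.H53.MID.GoldC

/-!
# MIX GoldCX: from the weighted sum to the number of solutions, without `e1`

`f1_lam_le2`: all the primes of `pb (2^j Q)`, `j < J`, are `≤ 2^J Q`; if two different ones `p, p'` divide `m` and `m/p`, `m/p'` are prime powers, then `m = p p' ≤ (2^J Q)^2` (as in `fp_lam_le`, file `H53/MID/Wts.lean`).
So for `m > 4 (2^J Q)^2` at most one term of `F1 Lam Q J m` is nonzero (the blocks `pb (2^j Q)` are disjoint).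
`gold_c_x`: copy and adapt `Pool.Agent.H53.MID.gold_c` (file `H53/MID/GoldC.lean`, complete) with `F1 Lam Q J (2n - m) ≤ log(2n-m) ≤ 2 L` from `f1_lam_le2` (`4 (2^J Q)^2 < N/4`): `|S| 4 L^2 ≥ H/(800 log P)`.
-/

set_option autoImplicit false

namespace Pool.Agent.H53.MIX

open Finset
open Pool.Agent.H91.EHA (Lam hR lamR ramS)
open Pool.Agent.H53.MID

private theorem GoldCX_mem_pb {P p : ℕ} : p ∈ Pool.Agent.H35.W.pb P ↔ (P < p ∧ p ≤ 2 * P) ∧ p.Prime := by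
  unfold Pool.Agent.H35.W.pb
  rw [Finset.mem_filter, Finset.mem_Ioc]

private theorem GoldCX_ppow {m p p' : ℕ} (hp : p.Prime) (hp' : p'.Prime) (hne : p ≠ p') (hpm : p ∣ m)
    (hpm' : p' ∣ m) (h : Lam (m / p) ≠ 0) : ∃ j, m = p * p' ^ (j + 1) := by
  unfold Lam at h
  rw [ArithmeticFunction.vonMangoldt_ne_zero_iff, isPrimePow_nat_iff] at h
  obtain ⟨q, k, hq, hk, hqk⟩ := h
  have hm : m = p * (m / p) := (Nat.mul_div_cancel' hpm).symm
  have h1 : p' ∣ m / p := by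
    have h2 : p' ∣ p * (m / p) := by rw [← hm]; exact hpm'
    rcases (Nat.Prime.dvd_mul hp').1 h2 with h3 | h3
    · exact absurd ((Nat.prime_dvd_prime_iff_eq hp' hp).1 h3).symm hne
    · exact h3
  rw [← hqk] at h1
  have h4 : p' = q := (Nat.prime_dvd_prime_iff_eq hp' hq).1 (hp'.dvd_of_dvd_pow h1)
  refine ⟨k - 1, ?_⟩
  rw [Nat.sub_add_cancel hk, h4, hqk]
  exact hm

private theorem GoldCX_disj {Q : ℕ} {i j p : ℕ} (hi : p ∈ Pool.Agent.H35.W.pb (2 ^ i * Q)) (hj : p ∈ Pool.Agent.H35.W.pb (2 ^ j * Q)) :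
    i = j := by
  have h1 := (GoldCX_mem_pb.1 hi).1
  have h2 := (GoldCX_mem_pb.1 hj).1
  have aux : ∀ a b : ℕ, 2 ^ a * Q < p → p ≤ 2 * (2 ^ b * Q) → a ≤ b := by
    intro a b h3 h4
    by_contra hab
    have h5 : 2 ^ (b + 1) ≤ 2 ^ a := Nat.pow_le_pow_right (by norm_num) (by omega)
    have h6 : 2 * (2 ^ b * Q) ≤ 2 ^ a * Q := by
      calc 2 * (2 ^ b * Q) = 2 ^ (b + 1) * Q := by ring
        _ ≤ 2 ^ a * Q := Nat.mul_le_mul_right _ h5
    omega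
  exact le_antisymm (aux i j h1.1 h2.2) (aux j i h2.1 h1.2)

private theorem GoldCX_fp {P m : ℕ} (h : Fp Lam P m ≠ 0) :
    ∃ p ∈ Pool.Agent.H35.W.pb P, p ∣ m ∧ Lam (m / p) ≠ 0 := by
  unfold Fp at h
  obtain ⟨p, hp, h1⟩ := Finset.exists_ne_zero_of_sum_ne_zero h
  rw [Finset.mem_filter] at hp
  exact ⟨p, hp.1, hp.2, h1⟩

private theorem GoldCX_two {m p p' Z : ℕ} (hm : Z ^ 2 < m) (h3 : p.Prime) (h3' : p'.Prime) (h2 : p ≤ Z)
    (h2' : p' ≤ Z) (hne : p ≠ p') (hpm : p ∣ m) (hpm' : p' ∣ m) (h : Lam (m / p) ≠ 0)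
    (h' : Lam (m / p') ≠ 0) : False := by
  obtain ⟨j, hj⟩ := GoldCX_ppow h3 h3' hne hpm hpm' h
  obtain ⟨i, hi⟩ := GoldCX_ppow h3' h3 hne.symm hpm' hpm h'
  have hpp : 0 < p := h3.pos
  have hpp' : 0 < p' := h3'.pos
  have he : p' ^ j = p ^ i := by
    have : p * p' ^ (j + 1) = p' * p ^ (i + 1) := by rw [← hj, ← hi]
    have h4 : (p * p') * p' ^ j = (p * p') * p ^ i := by
      calc (p * p') * p' ^ j = p * p' ^ (j + 1) := by ring
        _ = p' * p ^ (i + 1) := this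
        _ = (p * p') * p ^ i := by ring
    exact Nat.eq_of_mul_eq_mul_left (Nat.mul_pos hpp hpp') h4
  have hj0 : j = 0 := by
    by_contra hj0
    have h5 : p' ∣ p ^ i := by
      rw [← he]
      exact dvd_pow_self _ hj0
    exact hne ((Nat.prime_dvd_prime_iff_eq h3' h3).1 (h3'.dvd_of_dvd_pow h5)).symm
  rw [hj0] at hj
  have : m ≤ Z ^ 2 := by
    rw [hj]
    calc p * p' ^ (0 + 1) = p * p' := by ring
      _ ≤ Z * Z := Nat.mul_le_mul h2 h2'
      _ = Z ^ 2 := by ring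
  omega

theorem f1_lam_le2 (Q J m : ℕ) (hm : 4 * (2 ^ J * Q) ^ 2 < m) : F1 Lam Q J m ≤ Real.log m := by
  have hlog : 0 ≤ Real.log m := Real.log_natCast_nonneg m
  have hle : ∀ j ∈ range J, ∀ p ∈ Pool.Agent.H35.W.pb (2 ^ j * Q), p ≤ 2 ^ J * Q := by
    intro j hj p hp
    have h1 := (GoldCX_mem_pb.1 hp).1.2
    refine h1.trans ?_
    calc 2 * (2 ^ j * Q) = 2 ^ (j + 1) * Q := by ring
      _ ≤ 2 ^ J * Q := Nat.mul_le_mul_right Q (Nat.pow_le_pow_right (by norm_num) (mem_range.1 hj))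
  unfold F1
  by_cases hz : ∃ j ∈ range J, Fp Lam (2 ^ j * Q) m ≠ 0
  · obtain ⟨j, hj, hne⟩ := hz
    rw [Finset.sum_eq_single j]
    · apply fp_lam_le
      refine lt_of_le_of_lt ?_ hm
      exact Nat.mul_le_mul_left 4 (Nat.pow_le_pow_left (Nat.mul_le_mul_right Q
        (Nat.pow_le_pow_right (by norm_num) (mem_range.1 hj).le)) 2)
    · intro i hi hij
      by_contra hne'
      obtain ⟨p, hp, hpm, hp1⟩ := GoldCX_fp hne
      obtain ⟨p', hp', hpm', hp1'⟩ := GoldCX_fp hne'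
      refine GoldCX_two (Z := 2 ^ J * Q) (by omega) (GoldCX_mem_pb.1 hp).2 (GoldCX_mem_pb.1 hp').2
        (hle j hj p hp) (hle i hi p' hp') ?_ hpm hpm' hp1 hp1'
      rintro rfl
      exact hij (GoldCX_disj hp' hp)
    · intro h
      exact absurd hj h
  · push Not at hz
    rw [Finset.sum_eq_zero hz]
    exact hlog

private theorem GoldCX_lam (P m : ℕ) (h : Fp Lam P m ≠ 0) :
    ∃ p q a : ℕ, p.Prime ∧ q.Prime ∧ 1 ≤ a ∧ P < p ∧ p ≤ 2 * P ∧ m = p * q ^ a := by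
  unfold Fp at h
  obtain ⟨p, hp, h1⟩ := Finset.exists_ne_zero_of_sum_ne_zero h
  rw [Finset.mem_filter] at hp
  obtain ⟨hp, k, rfl⟩ := hp
  unfold Pool.Agent.H35.W.pb at hp
  rw [Finset.mem_filter, Finset.mem_Ioc] at hp
  rw [Nat.mul_div_cancel_left _ hp.2.pos] at h1
  unfold Pool.Agent.H91.EHA.Lam at h1
  rw [ArithmeticFunction.vonMangoldt_ne_zero_iff, isPrimePow_nat_iff] at h1
  obtain ⟨q, a, hq, ha, rfl⟩ := h1
  exact ⟨p, q, a, hp.2, hq, ha, hp.1.1, hp.1.2, rfl⟩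

open Classical in
theorem gold_c_x : ∃ N0 : ℕ, ∀ N : ℕ, N0 ≤ N → ∀ H P Q J i n : ℕ,
    2 ≤ P → P ^ 5 ≤ H → 1 ≤ Q → (2 ^ J * Q) ^ 5 ≤ H → H ^ 2 ≤ N →
    N / (2 * H) + 1 ≤ i → i + 1 ≤ 4 * N / H → i * H ≤ n → n < (i + 1) * H →
    (¬ ∃ m p q j : ℕ, p ≤ 2 ^ J * Q + 2 * P ∧ q.Prime ∧ 2 ≤ j ∧ m = p * q ^ j ∧ m ≤ n + 2 * H ∧ n ≤ m + 2 * H) →
    H / (800 * Real.log P) ≤ ∑ m ∈ Yw H i n, F1 Lam Q J (2 * n - m) * Fp Lam P m →
    H / (3200 * Real.log N ^ 2 * Real.log P) ≤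
      (((Icc (-(2 * H : ℤ)) (2 * H)).filter (fun x : ℤ => ∃ p1 q1 p2 q2 : ℕ, p1.Prime ∧ q1.Prime ∧ p2.Prime ∧
        q2.Prime ∧ Q < p1 ∧ p1 < q1 ∧ P < p2 ∧ p2 ≤ 2 * P ∧ (n : ℤ) - x = p1 * q1 ∧ (n : ℤ) + x = p2 * q2)).card : ℝ) := by
  refine ⟨64, fun N hN H P Q J i n hP hPH hQ hZH hHN hi1 hi2 hn1 hn2 hno hsum => ?_⟩
  have hH32 : 32 ≤ H := by
    calc 32 = 2 ^ 5 := by norm_num
      _ ≤ P ^ 5 := Nat.pow_le_pow_left hP 5
      _ ≤ H := hPH
  have hHN' : 32 * H ≤ N := by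
    calc 32 * H ≤ H * H := Nat.mul_le_mul_right H hH32
      _ = H ^ 2 := by ring
      _ ≤ N := hHN
  have hNr : (64 : ℝ) ≤ N := by exact_mod_cast hN
  obtain ⟨L, hL⟩ : ∃ L, L = Real.log N := ⟨_, rfl⟩
  have hL1 : 1 ≤ L := by
    rw [hL, Real.le_log_iff_exp_le (by linarith)]
    have := Real.exp_one_lt_d9
    linarith
  have hL0 : 0 < L := by linarith
  have hP2 : (2 : ℝ) ≤ P := by exact_mod_cast hP
  have hlogP : 0 < Real.log P := Real.log_pos (by linarith)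
  -- positions
  have h4 : N < 2 * H * (N / (2 * H) + 1) := Nat.lt_mul_div_succ _ (by omega)
  have h7 : H * (4 * N / H) ≤ 4 * N := Nat.mul_div_le _ _
  have hlow : N ≤ 4 * ((i - 1) * H) := by
    have h5 : 2 * H * (N / (2 * H)) ≤ 2 * H * (i - 1) := Nat.mul_le_mul_left _ (Nat.le_sub_of_add_le hi1)
    have h6 : N < 2 * ((i - 1) * H) + 2 * H := by nlinarith
    omega
  have hup : (i + 2) * H ≤ 5 * N := by
    have h8 : H * (i + 1) ≤ H * (4 * N / H) := Nat.mul_le_mul_left _ hi2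
    have h10 : (i + 2) * H = H * (i + 1) + H := by ring
    omega
  have hi0 : 1 ≤ i := le_trans (Nat.le_add_left 1 _) hi1
  have e1' : (i - 1) * H + H = i * H := by
    obtain ⟨k, rfl⟩ : ∃ k, i = k + 1 := ⟨i - 1, by omega⟩
    rw [Nat.add_sub_cancel]
    ring
  have e2' : (i + 1) * H = i * H + H := by ring
  have e3' : (i + 2) * H = i * H + 2 * H := by ring
  have hYw : ∀ m ∈ Yw H i n, N ≤ 4 * m ∧ m ≤ 5 * N ∧ N ≤ 4 * (2 * n - m) ∧ 2 * n - m ≤ 5 * N ∧ m ≤ 2 * n ∧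
      m ≤ n + 2 * H ∧ n ≤ m + 2 * H := by
    intro m hm
    unfold Yw at hm
    rw [Finset.mem_filter, Finset.mem_Ico, Finset.mem_Ico] at hm
    omega
  have hlog : ∀ k : ℕ, 1 ≤ k → k ≤ 5 * N → Real.log k ≤ 2 * L := by
    intro k hk1 hk
    have h8 : (k : ℝ) ≤ 5 * N := by exact_mod_cast hk
    have h9 : (k : ℝ) ≤ N * N := by nlinarith
    have h10 := Real.log_le_log (by exact_mod_cast hk1) h9
    rw [Real.log_mul (by linarith) (by linarith), ← hL] at h10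
    linarith
  -- the support
  obtain ⟨S, hS⟩ : ∃ S, S = (Yw H i n).filter (fun m => F1 Lam Q J (2 * n - m) * Fp Lam P m ≠ 0) := ⟨_, rfl⟩
  have hZN : 16 * (2 ^ J * Q) ^ 2 < N := by
    obtain ⟨Z, hZ⟩ : ∃ Z, Z = 2 ^ J * Q := ⟨_, rfl⟩
    rw [← hZ] at hZH ⊢
    rcases Nat.lt_or_ge Z 2 with c1 | c1
    · have c2 : Z ^ 2 ≤ 1 ^ 2 := Nat.pow_le_pow_left (by omega) 2
      omega
    · have c2 : Z ^ 10 ≤ N := by
        calc Z ^ 10 = (Z ^ 5) ^ 2 := by ring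
          _ ≤ H ^ 2 := Nat.pow_le_pow_left hZH 2
          _ ≤ N := hHN
      have c3 : 256 * Z ^ 2 ≤ Z ^ 10 := by
        calc 256 * Z ^ 2 = 2 ^ 8 * Z ^ 2 := by norm_num
          _ ≤ Z ^ 8 * Z ^ 2 := Nat.mul_le_mul_right _ (Nat.pow_le_pow_left c1 8)
          _ = Z ^ 10 := by ring
      have c4 : 0 < Z ^ 2 := by positivity
      omega
  have hsumS : ∑ m ∈ Yw H i n, F1 Lam Q J (2 * n - m) * Fp Lam P m ≤ S.card * (4 * L ^ 2) := by
    rw [← Finset.sum_filter_ne_zero, ← hS, ← nsmul_eq_mul, ← Finset.sum_const]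
    refine Finset.sum_le_sum fun m hm => ?_
    rw [hS, Finset.mem_filter] at hm
    obtain ⟨q1, q2, q3, q4, q5, q6, q7⟩ := hYw m hm.1
    have b1 : F1 Lam Q J (2 * n - m) ≤ 2 * L :=
      (f1_lam_le2 Q J (2 * n - m) (by omega)).trans (hlog _ (by omega) q4)
    have b2 : Fp Lam P m ≤ 2 * L := by
      refine (fp_lam_le P m ?_).trans (hlog _ (by omega) q2)
      have c1 : P ^ 10 ≤ N := by
        calc P ^ 10 = (P ^ 5) ^ 2 := by ring
          _ ≤ H ^ 2 := Nat.pow_le_pow_left hPH 2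
          _ ≤ N := hHN
      have c2 : 256 * P ^ 2 ≤ P ^ 10 := by
        calc 256 * P ^ 2 = 2 ^ 8 * P ^ 2 := by norm_num
          _ ≤ P ^ 8 * P ^ 2 := Nat.mul_le_mul_right _ (Nat.pow_le_pow_left hP 8)
          _ = P ^ 10 := by ring
      have c3 : 0 < P ^ 2 := by positivity
      omega
    have b3 := f1_nonneg Q J (2 * n - m)
    have b4 := fp_nonneg P m
    calc F1 Lam Q J (2 * n - m) * Fp Lam P m ≤ (2 * L) * (2 * L) :=
          mul_le_mul b1 b2 b4 (by positivity)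
      _ = 4 * L ^ 2 := by ring
  have hcardS : H / (3200 * Real.log N ^ 2 * Real.log P) ≤ (S.card : ℝ) := by
    have h8 := hsum.trans hsumS
    rw [← hL]
    rw [div_le_iff₀ (by positivity)] at h8 ⊢
    have h9 : (S.card : ℝ) * (4 * L ^ 2) * (800 * Real.log P) = S.card * (3200 * L ^ 2 * Real.log P) := by
      ring
    rw [← h9]
    exact h8
  refine hcardS.trans ?_
  have hcard : S.card ≤ ((Icc (-(2 * H : ℤ)) (2 * H)).filter (fun x : ℤ => ∃ p1 q1 p2 q2 : ℕ, p1.Prime ∧ q1.Prime ∧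
      p2.Prime ∧ q2.Prime ∧ Q < p1 ∧ p1 < q1 ∧ P < p2 ∧ p2 ≤ 2 * P ∧ (n : ℤ) - x = p1 * q1 ∧
        (n : ℤ) + x = p2 * q2)).card := by
    refine Finset.card_le_card_of_injOn (fun m : ℕ => (m : ℤ) - n) ?_ ?_
    · intro m hm
      rw [Finset.mem_coe, hS, Finset.mem_filter] at hm
      obtain ⟨hm, hne⟩ := hm
      obtain ⟨q1, q2, q3, q4, q5, q6, q7⟩ := hYw m hm
      rw [Finset.mem_coe, Finset.mem_filter, Finset.mem_Icc]
      beta_reduce
      refine ⟨⟨by omega, by omega⟩, ?_⟩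
      have hne1 : F1 Lam Q J (2 * n - m) ≠ 0 := left_ne_zero_of_mul hne
      have hne2 : Fp Lam P m ≠ 0 := right_ne_zero_of_mul hne
      unfold F1 at hne1
      obtain ⟨j, hj, hj1⟩ := Finset.exists_ne_zero_of_sum_ne_zero hne1
      rw [Finset.mem_range] at hj
      obtain ⟨p1, r1, a, hp1, hr1, ha, hp1a, hp1b, hm1⟩ := GoldCX_lam _ _ hj1
      obtain ⟨p2, r2, b, hp2, hr2, hb, hp2a, hp2b, hm2⟩ := GoldCX_lam _ _ hne2
      have hp1Z : p1 ≤ 2 ^ J * Q := by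
        refine hp1b.trans ?_
        calc 2 * (2 ^ j * Q) = 2 ^ (j + 1) * Q := by ring
          _ ≤ 2 ^ J * Q := Nat.mul_le_mul_right Q (Nat.pow_le_pow_right (by norm_num) hj)
      have hQp1 : Q < p1 := by
        refine lt_of_le_of_lt ?_ hp1a
        exact Nat.le_mul_of_pos_left Q (by positivity)
      have ha1 : a = 1 := by
        by_contra hcon
        exact hno ⟨2 * n - m, p1, r1, a, by omega, hr1, by omega, hm1, by omega, by omega⟩
      have hb1 : b = 1 := by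
        by_contra hcon
        exact hno ⟨m, p2, r2, b, by omega, hr2, by omega, hm2, q6, q7⟩
      rw [ha1, pow_one] at hm1
      rw [hb1, pow_one] at hm2
      refine ⟨p1, r1, p2, r2, hp1, hr1, hp2, hr2, hQp1, ?_, hp2a, hp2b, ?_, ?_⟩
      · by_contra hcon
        push Not at hcon
        have c1 : p1 * r1 ≤ (2 ^ J * Q) ^ 2 := by
          calc p1 * r1 ≤ p1 * p1 := Nat.mul_le_mul_left _ hcon
            _ ≤ (2 ^ J * Q) * (2 ^ J * Q) := Nat.mul_le_mul hp1Z hp1Z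
            _ = (2 ^ J * Q) ^ 2 := by ring
        have c2 : (2 ^ J * Q) ^ 10 ≤ N := by
          calc (2 ^ J * Q) ^ 10 = ((2 ^ J * Q) ^ 5) ^ 2 := by ring
            _ ≤ H ^ 2 := Nat.pow_le_pow_left hZH 2
            _ ≤ N := hHN
        have c3 : 2 ≤ 2 ^ J * Q := hp1.two_le.trans hp1Z
        have c4 : 256 * (2 ^ J * Q) ^ 2 ≤ (2 ^ J * Q) ^ 10 := by
          calc 256 * (2 ^ J * Q) ^ 2 = 2 ^ 8 * (2 ^ J * Q) ^ 2 := by norm_num
            _ ≤ (2 ^ J * Q) ^ 8 * (2 ^ J * Q) ^ 2 := Nat.mul_le_mul_right _ (Nat.pow_le_pow_left c3 8)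
            _ = (2 ^ J * Q) ^ 10 := by ring
        have c5 : 0 < (2 ^ J * Q) ^ 2 := by positivity
        rw [← hm1] at c1
        omega
      · have : ((2 * n - m : ℕ) : ℤ) = p1 * r1 := by exact_mod_cast hm1
        rw [← this]
        omega
      · have : (m : ℤ) = p2 * r2 := by exact_mod_cast hm2
        rw [← this]
        omega
    · intro x _ y _ hxy
      have : (x : ℤ) - n = (y : ℤ) - n := hxy
      omega
  exact_mod_cast hcard

end Pool.Agent.H53.MIX
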