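import Pool.Agent.H53.MIX.E1X
import Pool.Agent.H53.MIX.GoldCX
import Pool.Agent.H53.MID.Gold

/-!
# MIX GoldY: the main theorem for all windows `exp((log N)^θ) ≤ Y ≤ N^(1/4)`, under hypotheses

`X = Y^(1/12)`, `H = ⌊Y/2⌋`, `Q = ⌈X⌉`, `2^J ≤ X`.
-/

set_option autoImplicit false

namespace Pool.Agent.H53.MIX

open Finset
open Pool.Agent.H91.EHA (Lam hR lamR ramS)
open Pool.Agent.H53.MID

/-- sizes -/
private theorem GoldY_ev (t θ : ℝ) (htθ : t < θ) (hθ0 : 0 < θ) (hθ : θ < 1) (K : ℝ) :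
    ∃ N0 : ℕ, ∀ N : ℕ, N0 ≤ N →
    K ≤ Real.log N ∧ K ≤ Real.exp (Real.log N ^ θ / 12) ∧ K ≤ (N : ℝ) ∧
      4 * Real.log N ^ θ ≤ Real.log N ∧ Real.log N ^ t ≤ Real.log N ^ θ / 12 := by
  have h1 : Filter.Tendsto (fun N : ℕ => Real.log N) Filter.atTop Filter.atTop :=
    Real.tendsto_log_atTop.comp tendsto_natCast_atTop_atTop
  have h2 : Filter.Tendsto (fun N : ℕ => Real.exp (Real.log N ^ θ / 12)) Filter.atTop
      Filter.atTop :=
    Real.tendsto_exp_atTop.comp (((tendsto_rpow_atTop hθ0).comp h1).atTop_div_const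
      (by norm_num))
  have h3 : Filter.Tendsto (fun N : ℕ => (N : ℝ)) Filter.atTop Filter.atTop :=
    tendsto_natCast_atTop_atTop
  have h4 : Filter.Tendsto (fun N : ℕ => Real.log N ^ (1 - θ)) Filter.atTop Filter.atTop :=
    (tendsto_rpow_atTop (by linarith)).comp h1
  have h5 : Filter.Tendsto (fun N : ℕ => Real.log N ^ (θ - t)) Filter.atTop Filter.atTop :=
    (tendsto_rpow_atTop (by linarith)).comp h1
  obtain ⟨N0, h⟩ := Filter.eventually_atTop.1 (((((h1.eventually_ge_atTop (max K 1)).and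
    (h2.eventually_ge_atTop K)).and (h3.eventually_ge_atTop K)).and
    (h4.eventually_ge_atTop 4)).and (h5.eventually_ge_atTop 12))
  refine ⟨N0, fun N hN => ?_⟩
  obtain ⟨⟨⟨⟨a1, a2⟩, a3⟩, a4⟩, a5⟩ := h N hN
  have b1 : (0 : ℝ) < Real.log N := by
    have := (le_max_right K 1).trans a1
    linarith
  refine ⟨(le_max_left _ _).trans a1, a2, a3, ?_, ?_⟩
  · have e1 : Real.log N = Real.log N ^ (1 - θ) * Real.log N ^ θ := by
      rw [← Real.rpow_add b1, sub_add_cancel, Real.rpow_one]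
    calc 4 * Real.log N ^ θ ≤ Real.log N ^ (1 - θ) * Real.log N ^ θ :=
          mul_le_mul_of_nonneg_right a4 (Real.rpow_nonneg b1.le _)
      _ = Real.log N := e1.symm
  · have e1 : Real.log N ^ θ = Real.log N ^ (θ - t) * Real.log N ^ t := by
      rw [← Real.rpow_add b1, sub_add_cancel]
    have e2 : 12 * Real.log N ^ t ≤ Real.log N ^ (θ - t) * Real.log N ^ t :=
      mul_le_mul_of_nonneg_right a5 (Real.rpow_nonneg b1.le _)
    linarith

private theorem GoldY_det {X : ℝ} (hX : 12 ≤ X) :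
    ∃ H Q J : ℕ, X ^ 12 / 4 ≤ H ∧ (H : ℝ) ≤ X ^ 12 / 2 ∧
      X ≤ Q ∧ (Q : ℝ) ≤ 2 * X ∧ (2 : ℝ) ^ J ≤ X ∧ Real.log X / Real.log 2 - 1 ≤ J := by
  have h2 : 0 < Real.log 2 := Real.log_pos (by norm_num)
  have hX0 : 0 < X := by linarith
  have hlX : 0 ≤ Real.log X := Real.log_nonneg (by linarith)
  refine ⟨⌊X ^ 12 / 2⌋₊, ⌈X⌉₊, ⌊Real.log X / Real.log 2⌋₊, ?_, ?_, ?_, ?_, ?_, ?_⟩
  · have h1 := Nat.lt_floor_add_one (X ^ 12 / 2)
    have h3 : (12 : ℝ) ^ 12 ≤ X ^ 12 := pow_le_pow_left₀ (by norm_num) hX 12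
    norm_num at h3
    linarith
  · exact Nat.floor_le (by positivity)
  · exact Nat.le_ceil X
  · have := Nat.ceil_lt_add_one (show 0 ≤ X by linarith)
    linarith
  · obtain ⟨J, hJ⟩ : ∃ J : ℕ, J = ⌊Real.log X / Real.log 2⌋₊ := ⟨_, rfl⟩
    rw [← hJ]
    have h3 : (J : ℝ) ≤ Real.log X / Real.log 2 := by
      rw [hJ]
      exact Nat.floor_le (by positivity)
    have h4 : (J : ℝ) * Real.log 2 ≤ Real.log X := (le_div_iff₀ h2).1 h3
    have h5 : Real.log ((2 : ℝ) ^ J) ≤ Real.log X := by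
      rw [Real.log_pow]
      exact h4
    exact (Real.log_le_log_iff (by positivity) hX0).1 h5
  · have := Nat.lt_floor_add_one (Real.log X / Real.log 2)
    linarith

/-- the counting -/
private theorem GoldY_count {N H : ℕ} (hH : 1 ≤ H) (BB BT : Finset ℕ) (good excp : ℕ → Prop)
    [DecidablePred good] [DecidablePred excp]
    (f : ℕ → ℕ → ℝ) (D K : ℝ) (hK0 : 0 ≤ K)
    (hK : ∀ i ∈ Icc (N / H) (2 * N / H), (∀ j ∈ Icc (i - 1) (i + 1), j ∉ BB) →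
      (((Ico (i * H) ((i + 1) * H)).filter (fun n => D < f i n)).card : ℝ) ≤ K)
    (hgood : ∀ n ∈ Ioc N (2 * N), (∀ j ∈ Icc (n / H - 1) (n / H + 1), j ∉ BB) →
      (∀ j ∈ Icc (n / H - 1) (n / H + 1), j ∉ BT) → f (n / H) n ≤ D → ¬ excp n → good n) :
    (((Ioc N (2 * N)).filter (fun n => ¬ good n)).card : ℝ) ≤
      3 * H * (BB.card + BT.card) + (2 * N / H + 1 : ℝ) * K +
        (((Ioc N (2 * N)).filter excp).card : ℝ) := by
  classical
  obtain ⟨T, hT⟩ : ∃ T : ℕ → Finset ℕ, T = fun i => if (∀ j ∈ Icc (i - 1) (i + 1), j ∉ BB) then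
      (Ico (i * H) ((i + 1) * H)).filter (fun n => D < f i n) else ∅ := ⟨_, rfl⟩
  obtain ⟨U, hU⟩ : ∃ U : ℕ → Finset ℕ, U = fun j => Ico ((j - 1) * H) ((j + 2) * H) := ⟨_, rfl⟩
  have hHr : (0 : ℝ) < H := by exact_mod_cast hH
  have hsub : (Ioc N (2 * N)).filter (fun n => ¬ good n) ⊆
      (((BB ∪ BT).biUnion U) ∪ ((Icc (N / H) (2 * N / H)).biUnion T)) ∪
        (Ioc N (2 * N)).filter excp := by
    intro n hn
    rw [mem_filter] at hn
    obtain ⟨hn1, hn2⟩ := hn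
    by_contra hcon
    rw [mem_union, mem_union] at hcon
    push Not at hcon
    obtain ⟨⟨c1, c2⟩, c3⟩ := hcon
    have hdiv1 : n / H * H ≤ n := Nat.div_mul_le_self n H
    have hdiv2 : n < (n / H + 1) * H := by
      have := Nat.lt_mul_div_succ n (show 0 < H by omega)
      rw [mul_comm]
      exact this
    have hU1 : ∀ j ∈ Icc (n / H - 1) (n / H + 1), j ∉ BB ∪ BT := by
      intro j hj hjb
      apply c1
      rw [mem_biUnion]
      refine ⟨j, hjb, ?_⟩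
      rw [mem_Icc] at hj
      rw [hU, mem_Ico]
      have g1 : j - 1 ≤ n / H := Nat.sub_le_of_le_add hj.2
      have g2 : n / H + 1 ≤ j + 2 := Nat.succ_le_succ (Nat.sub_le_iff_le_add.1 hj.1)
      constructor
      · exact (Nat.mul_le_mul_right H g1).trans hdiv1
      · exact lt_of_lt_of_le hdiv2 (Nat.mul_le_mul_right H g2)
    have hBB : ∀ j ∈ Icc (n / H - 1) (n / H + 1), j ∉ BB :=
      fun j hj h => hU1 j hj (mem_union_left _ h)
    have hBT : ∀ j ∈ Icc (n / H - 1) (n / H + 1), j ∉ BT :=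
      fun j hj h => hU1 j hj (mem_union_right _ h)
    have hex : ¬ excp n := fun h => c3 (mem_filter.2 ⟨hn1, h⟩)
    apply hn2
    apply hgood n hn1 hBB hBT _ hex
    by_contra hD
    push Not at hD
    apply c2
    rw [mem_biUnion]
    rw [mem_Ioc] at hn1
    refine ⟨n / H, ?_, ?_⟩
    · rw [mem_Icc]
      exact ⟨Nat.div_le_div_right hn1.1.le, Nat.div_le_div_right hn1.2⟩
    · rw [hT]
      show n ∈ if (∀ j ∈ Icc (n / H - 1) (n / H + 1), j ∉ BB) then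
        (Ico (n / H * H) ((n / H + 1) * H)).filter (fun n' => D < f (n / H) n') else ∅
      rw [if_pos hBB, mem_filter, mem_Ico]
      exact ⟨⟨hdiv1, hdiv2⟩, hD⟩
  have hc1 : ((BB ∪ BT).biUnion U).card ≤ (BB.card + BT.card) * (3 * H) := by
    refine (card_biUnion_le_card_mul _ _ (3 * H) (fun j _ => ?_)).trans
      (Nat.mul_le_mul_right _ (card_union_le _ _))
    rw [hU]
    show (Ico ((j - 1) * H) ((j + 2) * H)).card ≤ 3 * H
    rw [Nat.card_Ico]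
    have h1 : (j + 2) * H ≤ (j - 1) * H + 3 * H := by
      rw [← add_mul]
      exact Nat.mul_le_mul_right H (by omega)
    omega
  have hc2 : (((Icc (N / H) (2 * N / H)).biUnion T).card : ℝ) ≤ (2 * N / H + 1 : ℝ) * K := by
    have h1 : (((Icc (N / H) (2 * N / H)).biUnion T).card : ℝ) ≤
        ∑ i ∈ Icc (N / H) (2 * N / H), ((T i).card : ℝ) := by
      have := card_biUnion_le (s := Icc (N / H) (2 * N / H)) (t := T)
      exact_mod_cast this
    have h2 : ∑ i ∈ Icc (N / H) (2 * N / H), ((T i).card : ℝ) ≤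
        ∑ i ∈ Icc (N / H) (2 * N / H), K := by
      refine Finset.sum_le_sum fun i hi => ?_
      rw [hT]
      show (((if (∀ j ∈ Icc (i - 1) (i + 1), j ∉ BB) then
        (Ico (i * H) ((i + 1) * H)).filter (fun n' => D < f i n') else ∅ : Finset ℕ)).card : ℝ) ≤ K
      split_ifs with hc
      · exact hK i hi hc
      · simpa using hK0
    refine h1.trans (h2.trans ?_)
    rw [Finset.sum_const, nsmul_eq_mul]
    apply mul_le_mul_of_nonneg_right _ hK0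
    rw [Nat.card_Icc]
    have h3 : ((2 * N / H + 1 - N / H : ℕ) : ℝ) ≤ ((2 * N / H : ℕ) : ℝ) + 1 := by
      have : 2 * N / H + 1 - N / H ≤ 2 * N / H + 1 := Nat.sub_le _ _
      exact_mod_cast this
    refine h3.trans ?_
    have h4 : ((2 * N / H : ℕ) : ℝ) ≤ ((2 * N : ℕ) : ℝ) / (H : ℝ) := Nat.cast_div_le
    push_cast at h4
    linarith
  have hcard := card_le_card hsub
  have hcard2 := hcard.trans (card_union_le _ _)
  have hcard3 : ((Ioc N (2 * N)).filter (fun n => ¬ good n)).card ≤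
      ((BB ∪ BT).biUnion U).card + ((Icc (N / H) (2 * N / H)).biUnion T).card +
        ((Ioc N (2 * N)).filter excp).card :=
    hcard2.trans (Nat.add_le_add_right (card_union_le _ _) _)
  have h5 : (((Ioc N (2 * N)).filter (fun n => ¬ good n)).card : ℝ) ≤
      (((BB ∪ BT).biUnion U).card : ℝ) + (((Icc (N / H) (2 * N / H)).biUnion T).card : ℝ) +
        (((Ioc N (2 * N)).filter excp).card : ℝ) := by exact_mod_cast hcard3
  have h6 : (((BB ∪ BT).biUnion U).card : ℝ) ≤ (BB.card + BT.card) * (3 * H) := by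
    exact_mod_cast hc1
  linarith

/-- the final numbers -/
private theorem GoldY_num {N H L b1 b2 K e : ℝ} {A B : ℕ} (hL : 4 ≤ L) (hN : 0 ≤ N) (hH : 0 < H)
    (hHN : H ≤ N) (hB : 1 ≤ B) (h1 : b1 ≤ N / H / L ^ (A + 8)) (h2 : b2 ≤ N / H / L ^ (B + A + 6))
    (hK : K = (3 * (H / L ^ (A + 8))) ^ 2 * (3 * H * (2 * L) ^ 2) / (H / L ^ 3) ^ 2)
    (he : e ≤ N / L ^ (A + 1)) :
    3 * H * (b1 + b2) + (2 * N / H + 1) * K + e ≤ N / L ^ A := by
  have hL0 : 0 < L := by linarith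
  have hL1 : 1 ≤ L := by linarith
  obtain ⟨T, hT⟩ : ∃ T, T = N / L ^ A := ⟨_, rfl⟩
  have hT0 : 0 ≤ T := by rw [hT]; positivity
  have hK' : K = 108 * H / (L ^ A * L ^ A * L ^ 8) := by
    rw [hK]
    field_simp
    ring
  have hLA : 1 ≤ L ^ A := one_le_pow₀ hL1
  have hK2 : K ≤ 108 * H / (L ^ A * L ^ 8) := by
    rw [hK']
    apply div_le_div_of_nonneg_left (by positivity) (by positivity)
    nlinarith [show 0 ≤ L ^ A * L ^ 8 by positivity]
  have hb1 : H * b1 ≤ T / L ^ 8 := by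
    calc H * b1 ≤ H * (N / H / L ^ (A + 8)) := mul_le_mul_of_nonneg_left h1 hH.le
      _ = T / L ^ 8 := by rw [hT, pow_add]; field_simp
  have hb2 : H * b2 ≤ T / L ^ 7 := by
    have h3 : N / H / L ^ (B + A + 6) ≤ N / H / L ^ (A + 7) :=
      div_le_div_of_nonneg_left (by positivity) (by positivity)
        (pow_le_pow_right₀ hL1 (by omega))
    calc H * b2 ≤ H * (N / H / L ^ (A + 7)) := mul_le_mul_of_nonneg_left (h2.trans h3) hH.le
      _ = T / L ^ 7 := by rw [hT, pow_add]; field_simp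
  have hcK : (2 * N / H + 1) * K ≤ 324 * (T / L ^ 8) := by
    have h3 : 2 * N / H + 1 ≤ 3 * N / H := by
      rw [div_add_one hH.ne']
      apply div_le_div_of_nonneg_right _ hH.le
      linarith
    calc (2 * N / H + 1) * K ≤ (3 * N / H) * (108 * H / (L ^ A * L ^ 8)) :=
          mul_le_mul h3 hK2 (by rw [hK']; positivity) (by positivity)
      _ = 324 * (T / L ^ 8) := by rw [hT]; field_simp; ring
  have heT : e ≤ T / L := by
    refine he.trans (le_of_eq ?_)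
    rw [hT, pow_succ]
    field_simp
  have hL7 : (4 : ℝ) ^ 7 ≤ L ^ 7 := pow_le_pow_left₀ (by norm_num) hL 7
  have hL8 : (4 : ℝ) ^ 8 ≤ L ^ 8 := pow_le_pow_left₀ (by norm_num) hL 8
  norm_num at hL7 hL8
  have f1 : T / L ^ 7 ≤ T / 16384 := div_le_div_of_nonneg_left hT0 (by norm_num) hL7
  have f2 : T / L ^ 8 ≤ T / 65536 := div_le_div_of_nonneg_left hT0 (by norm_num) hL8
  have f3 : T / L ≤ T / 4 := div_le_div_of_nonneg_left hT0 (by norm_num) hL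
  rw [← hT]
  have h4 : 3 * H * (b1 + b2) = 3 * (H * b1) + 3 * (H * b2) := by ring
  rw [h4]
  linarith

/-- natural number consequences of the sizes -/
private theorem GoldY_nat {N H Q J P : ℕ} {X : ℝ} (hX : 12 ≤ X) (h48 : X ^ 48 ≤ N)
    (hH1 : X ^ 12 / 4 ≤ H) (hH2 : (H : ℝ) ≤ X ^ 12 / 2) (hQ2 : (Q : ℝ) ≤ 2 * X)
    (hJ : (2 : ℝ) ^ J ≤ X) (hP : (P : ℝ) ≤ X) :
    1 ≤ H ∧ (2 ^ J * Q) ^ 5 ≤ H ∧ P ^ 5 ≤ H ∧ H ^ 4 ≤ N ∧ (2 ^ J * Q + 2 * P) ^ 8 ≤ N ∧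
      4 * P ^ 2 + 2 * H < N ∧ 2 * H ≤ N := by
  have hX0 : 0 < X := by linarith
  have hX1 : 1 ≤ X := by linarith
  have hQ0 : (0 : ℝ) ≤ Q := Nat.cast_nonneg Q
  have hP0 : (0 : ℝ) ≤ P := Nat.cast_nonneg P
  have hH0 : (0 : ℝ) ≤ H := Nat.cast_nonneg H
  have h144 : 144 ≤ X ^ 2 := by nlinarith
  have hz : (2 : ℝ) ^ J * Q ≤ 2 * X ^ 2 := by
    calc (2 : ℝ) ^ J * Q ≤ X * (2 * X) := mul_le_mul hJ hQ2 hQ0 hX0.le
      _ = 2 * X ^ 2 := by ring
  have hz0 : 0 ≤ (2 : ℝ) ^ J * Q := by positivity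
  have hX12 : 1 ≤ X ^ 12 := one_le_pow₀ hX1
  have hbig : (12 : ℝ) ^ 12 ≤ X ^ 12 := pow_le_pow_left₀ (by norm_num) hX 12
  norm_num at hbig
  refine ⟨?_, ?_, ?_, ?_, ?_, ?_, ?_⟩
  · have : (1 : ℝ) ≤ H := by linarith
    exact_mod_cast this
  · have h1 : ((2 : ℝ) ^ J * Q) ^ 5 ≤ (2 * X ^ 2) ^ 5 := pow_le_pow_left₀ hz0 hz 5
    have h2 : (2 * X ^ 2) ^ 5 ≤ X ^ 12 / 4 := by
      have e1 : (2 * X ^ 2) ^ 5 = X ^ 10 * 32 := by ring
      have e2 : X ^ 12 / 4 = X ^ 10 * (X ^ 2 / 4) := by ring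
      rw [e1, e2]
      exact mul_le_mul_of_nonneg_left (by linarith) (by positivity)
    have h3 : ((2 : ℝ) ^ J * Q) ^ 5 ≤ H := by linarith
    exact_mod_cast h3
  · have h1 : (P : ℝ) ^ 5 ≤ X ^ 5 := pow_le_pow_left₀ hP0 hP 5
    have h2 : X ^ 5 ≤ X ^ 12 / 4 := by
      have e2 : X ^ 12 / 4 = X ^ 5 * (X ^ 5 * (X ^ 2 / 4)) := by ring
      rw [e2]
      have : 1 ≤ X ^ 5 * (X ^ 2 / 4) := by
        have h3 : 1 ≤ X ^ 5 := one_le_pow₀ hX1
        nlinarith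
      exact le_mul_of_one_le_right (by positivity) this
    have h3 : (P : ℝ) ^ 5 ≤ H := by linarith
    exact_mod_cast h3
  · have h1 : (H : ℝ) ^ 4 ≤ (X ^ 12) ^ 4 := pow_le_pow_left₀ hH0 (by linarith) 4
    have h2 : (X ^ 12) ^ 4 = X ^ 48 := by ring
    have h3 : (H : ℝ) ^ 4 ≤ N := by linarith
    exact_mod_cast h3
  · have h0 : (2 : ℝ) ^ J * Q + 2 * P ≤ X ^ 3 := by
      have e1 : X ^ 3 = X * X ^ 2 := by ring
      nlinarith
    have h1 : ((2 : ℝ) ^ J * Q + 2 * P) ^ 8 ≤ (X ^ 3) ^ 8 :=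
      pow_le_pow_left₀ (by positivity) h0 8
    have h2 : (X ^ 3) ^ 8 ≤ X ^ 48 := by
      rw [← pow_mul]
      exact pow_le_pow_right₀ hX1 (by norm_num)
    have h3 : ((2 : ℝ) ^ J * Q + 2 * P) ^ 8 ≤ N := by linarith
    exact_mod_cast h3
  · have h1 : (P : ℝ) ^ 2 ≤ X ^ 2 := pow_le_pow_left₀ hP0 hP 2
    have h2 : X ^ 2 ≤ X ^ 12 := pow_le_pow_right₀ hX1 (by norm_num)
    have h3 : 5 * X ^ 12 < X ^ 48 := by
      have e1 : X ^ 48 = X ^ 12 * X ^ 36 := by ring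
      have e2 : (5 : ℝ) < X ^ 36 := by
        have : X ^ 1 ≤ X ^ 36 := pow_le_pow_right₀ hX1 (by norm_num)
        rw [pow_one] at this
        linarith
      rw [e1]
      nlinarith
    have h4 : 4 * (P : ℝ) ^ 2 + 2 * H < N := by linarith
    exact_mod_cast h4
  · have h3 : X ^ 12 ≤ X ^ 48 := pow_le_pow_right₀ hX1 (by norm_num)
    have h4 : 2 * (H : ℝ) ≤ N := by linarith
    exact_mod_cast h4

/-- the weight of the first form -/
private theorem GoldY_w1 {Q J : ℕ} {X w : ℝ} (hX : 12 ≤ X) (hQ1 : X ≤ Q) (hQ2 : (Q : ℝ) ≤ 2 * X)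
    (hJ : (2 : ℝ) ^ J ≤ X) (hJ2 : Real.log X / Real.log 2 - 1 ≤ J)
    (hw : (J : ℝ) / (16 * Real.log (2 ^ J * Q)) ≤ w) : 1 / 50 ≤ w := by
  have hX0 : 0 < X := by linarith
  have hl2 : 0 < Real.log 2 := Real.log_pos (by norm_num)
  have hl2b := Real.log_two_lt_d9
  have hl2a := Real.log_two_gt_d9
  have hlX : 2 ≤ Real.log X := by
    have h1 : Real.log (2 ^ 3) ≤ Real.log X := Real.log_le_log (by norm_num) (by linarith)
    rw [Real.log_pow] at h1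
    push_cast at h1
    linarith
  have h2J : 1 ≤ (2 : ℝ) ^ J := one_le_pow₀ (by norm_num)
  have hz : (2 : ℝ) ^ J * Q ≤ 2 * X ^ 2 := by
    calc (2 : ℝ) ^ J * Q ≤ X * (2 * X) := mul_le_mul hJ hQ2 (Nat.cast_nonneg Q) hX0.le
      _ = 2 * X ^ 2 := by ring
  have hz1 : 1 < (2 : ℝ) ^ J * Q := by nlinarith
  have hlz : 0 < Real.log (2 ^ J * Q) := Real.log_pos hz1
  have hlz2 : Real.log (2 ^ J * Q) ≤ Real.log 2 + 2 * Real.log X := by
    have h1 : Real.log (2 ^ J * Q) ≤ Real.log (2 * X ^ 2) := Real.log_le_log (by linarith) hz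
    have h2 : Real.log (2 * X ^ 2) = Real.log 2 + 2 * Real.log X := by
      rw [Real.log_mul (by norm_num) (by positivity), Real.log_pow]
      push_cast
      ring
    rw [h2] at h1
    exact h1
  refine le_trans ?_ hw
  rw [le_div_iff₀ (by positivity)]
  have h3 : Real.log X / Real.log 2 ≥ Real.log X / 0.7 := by
    apply div_le_div_of_nonneg_left (by linarith) hl2
    linarith
  have h4 : Real.log X / 0.7 = Real.log X * (10 / 7) := by
    norm_num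
    ring
  rw [h4] at h3
  linarith

private theorem GoldY_badT_mono {g : ℕ → ℝ} {N H : ℕ} {Q M M' : ℝ} (h : M ≤ M') :
    (badT g N H Q M').card ≤ (badT g N H Q M).card := by
  classical
  apply card_le_card
  unfold badT
  intro i hi
  rw [mem_filter] at hi ⊢
  obtain ⟨h1, r, a, y1, y2, h2, h3, h4, h5, h6⟩ := hi
  exact ⟨h1, r, a, y1, y2, h2, h3, h4, h5, lt_of_le_of_lt h h6⟩

private theorem GoldY_index {N H : ℕ} (hH : 1 ≤ H) (hHN : 2 * H ≤ N) {i : ℕ}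
    (hi : i ∈ Icc (N / H) (2 * N / H)) : N / (2 * H) + 1 ≤ i ∧ i + 1 ≤ 4 * N / H := by
  rw [mem_Icc] at hi
  obtain ⟨h1, h2⟩ := hi
  have hH0 : 0 < H := hH
  obtain ⟨a, ha⟩ : ∃ a, a = N / (2 * H) := ⟨_, rfl⟩
  obtain ⟨c, hc⟩ : ∃ c, c = 2 * N / H := ⟨_, rfl⟩
  obtain ⟨q, hq⟩ : ∃ q, q = N / H := ⟨_, rfl⟩
  obtain ⟨f, hf⟩ : ∃ f, f = 4 * N / H := ⟨_, rfl⟩
  have ha1 : 1 ≤ a := by
    rw [ha]
    exact (Nat.one_le_div_iff (by omega)).2 hHN
  have ha2 : a * (2 * H) ≤ N := by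
    rw [ha]
    exact Nat.div_mul_le_self _ _
  have hq1 : 2 * a ≤ q := by
    rw [hq, Nat.le_div_iff_mul_le hH0]
    calc 2 * a * H = a * (2 * H) := by ring
      _ ≤ N := ha2
  have hc1 : 1 ≤ c := by
    rw [hc]
    exact (Nat.one_le_div_iff (by omega)).2 (by omega)
  have hc2 : c * H ≤ 2 * N := by
    rw [hc]
    exact Nat.div_mul_le_self _ _
  have hf1 : 2 * c ≤ f := by
    rw [hf, Nat.le_div_iff_mul_le hH0]
    calc 2 * c * H = 2 * (c * H) := by ring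
      _ ≤ 4 * N := by omega
  rw [← hq] at h1
  rw [← hc] at h2
  rw [← ha, ← hf]
  omega

open Classical in
theorem gold_y (t t1 t2 θ : ℝ) (h01 : 0 < t1) (h1 : t1 < t) (htθ : t < θ) (hθ : θ < 1) (h02 : 0 < t2) (h2 : t2 < t)
    (hVK : VKw t1) (hSW : SWp) (hCX : CombX t t2) (hJJ : JJp) (hPB : PBp) (A : ℕ) :
    ∃ C N0 : ℕ, 0 < C ∧ ∀ N : ℕ, N0 ≤ N → ∀ (P : ℕ) (Y : ℝ), Real.exp (Real.log N ^ θ) ≤ Y → Y ^ 4 ≤ N →
    Real.log N ^ C ≤ P → (P : ℝ) ^ C ≤ Y →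
    (((Ioc N (2 * N)).filter (fun n : ℕ => ¬ (Y / (C * Real.log N ^ 2 * Real.log P) ≤
      (((Icc (-⌊Y⌋) ⌊Y⌋).filter (fun x : ℤ => ∃ p1 q1 p2 q2 : ℕ,
        p1.Prime ∧ q1.Prime ∧ p2.Prime ∧ q2.Prime ∧ Y ≤ (p1 : ℝ) ^ C ∧ p1 < q1 ∧ P < p2 ∧
        p2 ≤ 2 * P ∧ (n : ℤ) - x = p1 * q1 ∧ (n : ℤ) + x = p2 * q2)).card : ℝ)))).card : ℝ) ≤ N / Real.log N ^ A := by
  have hθ0 : 0 < θ := by linarith
  obtain ⟨B0, hB0⟩ := e1_small_x t t1 t2 h01 h1 (by linarith) h02 h2 hVK hSW hCX (A + 8)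
  obtain ⟨B, hBd⟩ : ∃ B : ℕ, B = max B0 1 := ⟨_, rfl⟩
  have hB0B : B0 ≤ B := by rw [hBd]; exact le_max_left _ _
  have hB1 : 1 ≤ B := by rw [hBd]; exact le_max_right _ _
  obtain ⟨N1, hN1⟩ := hB0 B hB0B
  obtain ⟨b, N2, hN2⟩ := typ2 hJJ (B + A + 6) B
  obtain ⟨N3, hN3⟩ := gold_b hPB B hB1
  obtain ⟨N4, hN4⟩ := gold_c_x
  obtain ⟨N5, hN5⟩ := ppw (A + 1)
  obtain ⟨P0, hP02, hP0⟩ := w1_ge hPB
  obtain ⟨N6, hN6⟩ := GoldY_ev t θ htθ hθ0 hθ (12 + P0)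
  obtain ⟨C, hC⟩ : ∃ C : ℕ, C = b + (5 * B + 10) + 12800 + 1 := ⟨_, rfl⟩
  have hCb : b ≤ C := by omega
  have hCB : 5 * B + 10 ≤ C := by omega
  have hC1 : 1 ≤ C := by omega
  have hC12 : 12 ≤ C := by omega
  have hC2 : (12800 : ℝ) ≤ C := by
    have : 12800 ≤ C := by omega
    exact_mod_cast this
  refine ⟨C, N1 + N2 + N3 + N4 + N5 + N6 + 3, by omega, ?_⟩
  intro N hN P Y hY1 hY2 hLP hPC
  obtain ⟨hL12, hE12, hN12, hLθ, hLt⟩ := hN6 N (by omega)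
  have hE0 : 0 < Real.exp (Real.log N ^ θ) := Real.exp_pos _
  have hY0 : 0 < Y := lt_of_lt_of_le hE0 hY1
  have hP0r : (0 : ℝ) ≤ P0 := Nat.cast_nonneg P0
  obtain ⟨L, hL⟩ : ∃ L : ℝ, L = Real.log N := ⟨_, rfl⟩
  obtain ⟨X, hX⟩ : ∃ X : ℝ, X = Y ^ (1 / 12 : ℝ) := ⟨_, rfl⟩
  have hXY : X ^ 12 = Y := by
    rw [hX, ← Real.rpow_natCast, ← Real.rpow_mul hY0.le]
    norm_num
  have hEX : Real.exp (Real.log N ^ θ / 12) ≤ X := by
    have e1 : Real.exp (Real.log N ^ θ / 12) = Real.exp (Real.log N ^ θ) ^ (1 / 12 : ℝ) := by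
      rw [← Real.exp_mul]
      congr 1
      ring
    rw [e1, hX]
    exact Real.rpow_le_rpow hE0.le hY1 (by norm_num)
  have hX12 : 12 + (P0 : ℝ) ≤ X := hE12.trans hEX
  rw [← hL] at hL12
  have hL4 : 12 ≤ L := by linarith
  have hL1 : 1 ≤ L := by linarith
  have hX12' : 12 ≤ X := by linarith
  have hXP0 : (P0 : ℝ) ≤ X := by linarith
  have hNr : (12 : ℝ) ≤ N := by linarith
  have hNr1 : (1 : ℝ) ≤ N := by linarith
  have hNr0 : (0 : ℝ) < N := by linarith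
  have h48 : X ^ 48 ≤ N := by
    have e1 : X ^ 48 = (X ^ 12) ^ 4 := by ring
    rw [e1, hXY]
    exact hY2
  have hXe : X ^ 12 = Y := hXY
  have hXe1 : Real.exp (Real.log N ^ t) ≤ X := (Real.exp_le_exp.2 hLt).trans hEX
  have hPX : (P : ℝ) ≤ X := by
    by_contra hcon
    push Not at hcon
    have h1 : X ^ C < (P : ℝ) ^ C := pow_lt_pow_left₀ hcon (by linarith) (by omega)
    have h2 : X ^ 12 ≤ X ^ C := pow_le_pow_right₀ (by linarith) hC12
    rw [hXe] at h2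
    linarith
  obtain ⟨H, Q, J, hH1, hH2, hQ1, hQ2, hJ1, hJ2⟩ := GoldY_det hX12'
  obtain ⟨n1, n2, n3, n4, n5, n6, n7⟩ := GoldY_nat hX12' h48 hH1 hH2 hQ2 hJ1 hPX
  have hHr : (0 : ℝ) < H := by exact_mod_cast n1
  have hHN2 : H ^ 2 ≤ N := by
    have : H ^ 2 ≤ H ^ 4 := Nat.pow_le_pow_right n1 (by norm_num)
    exact this.trans n4
  have hQP0 : P0 ≤ Q := by
    have : (P0 : ℝ) ≤ Q := hXP0.trans hQ1
    exact_mod_cast this
  have hW : (1 : ℝ) / 50 ≤ W1 Q J := GoldY_w1 hX12' hQ1 hQ2 hJ1 hJ2 (hP0 Q J hQP0)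
  have hQe : Real.exp (Real.log N ^ t) ≤ Q := hXe1.trans hQ1
  have hQ1n : 1 ≤ Q := by
    have : (1 : ℝ) ≤ Q := by linarith
    exact_mod_cast this
  have hPb : ∀ c : ℕ, c ≤ C → Real.log N ^ c ≤ P := by
    intro c hc
    refine le_trans ?_ hLP
    rw [← hL]
    exact pow_le_pow_right₀ hL1 hc
  have hP2r : (12 : ℝ) ≤ P := by
    have h1 := hPb 1 hC1
    rw [pow_one, ← hL] at h1
    linarith
  have hP2 : 2 ≤ P := by
    have : ((12 : ℕ) : ℝ) ≤ P := by exact_mod_cast hP2r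
    have : 12 ≤ P := by exact_mod_cast this
    omega
  have hlogP : 0 < Real.log P := Real.log_pos (by linarith)
  -- the functions
  obtain ⟨e, he⟩ : ∃ e : ℕ → ℝ, e = fun m => F1 Lam Q J m - W1 Q J * lamR ⌊Real.log N ^ B⌋₊ m :=
    ⟨_, rfl⟩
  have cBB := hN1 N (by omega) H Q J hQe n2 hHN2
  rw [← he] at cBB
  have cBT := hN2 N (by omega) H P (hPb b hCb) n3 hHN2
  have cEx := hN5 N (by omega) H (2 ^ J * Q + 2 * P) n1 n4 n5
  have hMM : (H : ℝ) / Real.log N ^ (B + A + 6) ≤ H / Real.log N ^ (B + 4) := by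
    rw [← hL]
    exact div_le_div_of_nonneg_left hHr.le (by positivity) (pow_le_pow_right₀ hL1 (by omega))
  have cBT' : ((badT (Fp (hR ⌊Real.log N ^ (B + 1)⌋₊) P) N H (Real.log N ^ B)
      (H / Real.log N ^ (B + 4))).card : ℝ) ≤ (N / H : ℝ) / Real.log N ^ (B + A + 6) := by
    refine le_trans ?_ cBT
    exact_mod_cast GoldY_badT_mono hMM
  obtain ⟨K, hK⟩ : ∃ K : ℝ, K = (3 * ((H : ℝ) / L ^ (A + 8))) ^ 2 * (3 * H * (2 * L) ^ 2) /
      (H / L ^ 3) ^ 2 := ⟨_, rfl⟩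
  have hK0 : 0 ≤ K := by rw [hK]; positivity
  have hcount := GoldY_count (N := N) (H := H) n1 (badB e N H (H / Real.log N ^ (A + 8)))
    (badT (Fp (hR ⌊Real.log N ^ (B + 1)⌋₊) P) N H (Real.log N ^ B) (H / Real.log N ^ (B + 4)))
    (fun n : ℕ => Y / (C * Real.log N ^ 2 * Real.log P) ≤
      (((Icc (-⌊Y⌋) ⌊Y⌋).filter (fun x : ℤ => ∃ p1 q1 p2 q2 : ℕ, p1.Prime ∧ q1.Prime ∧ p2.Prime ∧
        q2.Prime ∧ Y ≤ (p1 : ℝ) ^ C ∧ p1 < q1 ∧ P < p2 ∧ p2 ≤ 2 * P ∧ (n : ℤ) - x = p1 * q1 ∧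
        (n : ℤ) + x = p2 * q2)).card : ℝ))
    (fun n => ∃ m p q j : ℕ, p ≤ 2 ^ J * Q + 2 * P ∧ q.Prime ∧ 2 ≤ j ∧ m = p * q ^ j ∧
      m ≤ n + 2 * H ∧ n ≤ m + 2 * H)
    (fun i n => |∑ m ∈ Yw H i n, e (2 * n - m) * Fp Lam P m|) (H / L ^ 3) K hK0 ?_ ?_
  · refine hcount.trans ?_
    have hKL := hK
    rw [hL] at hKL
    refine GoldY_num (A := A) (B := B) (L := Real.log N) (N := N) (H := H) (K := K)
      (by rw [← hL]; linarith) hNr0.le hHr ?_ hB1 cBB cBT' hKL cEx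
    have : H ≤ N := by omega
    exact_mod_cast this
  · -- few `n` with a large error
    intro i hi hBBi
    obtain ⟨g1, g2⟩ := GoldY_index n1 n7 hi
    have hi1 : 1 ≤ i := le_trans (Nat.succ_le_succ (Nat.zero_le _)) g1
    rw [hK]
    refine gold_a e (Fp Lam P) H i ((H : ℝ) / L ^ (A + 8)) (2 * L) (H / L ^ 3) hi1 (by positivity)
      (by positivity) ?_ ?_
    · intro j hj α
      by_contra hcon
      push Not at hcon
      apply hBBi j hj
      unfold badB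
      rw [mem_Icc] at hj
      rw [mem_filter, mem_Icc]
      refine ⟨⟨(Nat.le_sub_of_add_le g1).trans hj.1, hj.2.trans g2⟩, α, ?_⟩
      rw [← hL]
      exact hcon
    · intro m hm
      rw [mem_Ico] at hm
      rw [mem_Icc] at hi
      have hlow : N < (N / H + 1) * H := by
        have := Nat.lt_mul_div_succ N (show 0 < H by omega)
        rw [mul_comm]
        exact this
      have hup : 2 * N / H * H ≤ 2 * N := Nat.div_mul_le_self _ _
      have hm1 : N < m + 2 * H := by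
        calc N < (N / H + 1) * H := hlow
          _ ≤ (i - 1 + 2) * H := Nat.mul_le_mul_right H (by have := hi.1; omega)
          _ = (i - 1) * H + 2 * H := by ring
          _ ≤ m + 2 * H := by omega
      have hm2 : m < 2 * N + 2 * H := by
        calc m < (i + 2) * H := hm.2
          _ = i * H + 2 * H := by ring
          _ ≤ 2 * N / H * H + 2 * H := Nat.add_le_add_right (Nat.mul_le_mul_right H hi.2) _
          _ ≤ 2 * N + 2 * H := by omega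
      rw [abs_of_nonneg (fp_nonneg P m)]
      refine (fp_lam_le P m (by omega)).trans ?_
      have hm3 : (m : ℝ) ≤ (N : ℝ) ^ 2 := by
        have h1 : m ≤ 3 * N := by omega
        have h2 : (m : ℝ) ≤ 3 * N := by exact_mod_cast h1
        nlinarith
      have hm0 : (0 : ℝ) < m := by
        have : 0 < m := by omega
        exact_mod_cast this
      calc Real.log m ≤ Real.log ((N : ℝ) ^ 2) := Real.log_le_log hm0 hm3
        _ = 2 * L := by rw [Real.log_pow, hL]; push_cast; ring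
  · -- the good `n`
    intro n hn hBBn hBTn hf hex
    rw [mem_Ioc] at hn
    have hiI : n / H ∈ Icc (N / H) (2 * N / H) := by
      rw [mem_Icc]
      exact ⟨Nat.div_le_div_right hn.1.le, Nat.div_le_div_right hn.2⟩
    obtain ⟨g1, g2⟩ := GoldY_index n1 n7 hiI
    have hdiv1 : n / H * H ≤ n := Nat.div_mul_le_self n H
    have hdiv2 : n < (n / H + 1) * H := by
      have := Nat.lt_mul_div_succ n (show 0 < H by omega)
      rw [mul_comm]
      exact this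
    have hf' : |∑ m ∈ Yw H (n / H) n, (F1 Lam Q J (2 * n - m) -
        W1 Q J * lamR ⌊Real.log N ^ B⌋₊ (2 * n - m)) * Fp Lam P m| ≤ H / Real.log N ^ 3 := by
      rw [← hL]
      rw [he] at hf
      rw [← hL] at hf
      exact hf
    have hb := hN3 N (by omega) H P Q J (n / H) n (hPb _ hCB) n3 hHN2 hW g1 g2 hdiv1 hdiv2 hf' hBTn
    have hc := hN4 N (by omega) H P Q J (n / H) n hP2 n3 hQ1n n2 hHN2 g1 g2 hdiv1 hdiv2 hex hb
    have hcomp : Y / (C * Real.log N ^ 2 * Real.log P) ≤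
        H / (3200 * Real.log N ^ 2 * Real.log P) := by
      rw [← hXe, ← hL]
      have hCr : (0 : ℝ) < C := by exact_mod_cast hC1
      rw [div_le_div_iff₀ (by positivity) (by positivity)]
      have h1 : X ^ 12 * 3200 ≤ H * C := by
        have h2 : X ^ 12 ≤ 4 * H := by linarith
        have h3 : (12800 : ℝ) * H ≤ C * H := mul_le_mul_of_nonneg_right hC2 hHr.le
        linarith
      calc X ^ 12 * (3200 * L ^ 2 * Real.log P) = (X ^ 12 * 3200) * (L ^ 2 * Real.log P) := by ring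
        _ ≤ (H * C) * (L ^ 2 * Real.log P) :=
            mul_le_mul_of_nonneg_right h1 (by positivity)
        _ = H * (C * L ^ 2 * Real.log P) := by ring
    refine (hcomp.trans hc).trans ?_
    have hfl : (2 * H : ℤ) ≤ ⌊Y⌋ := by
      rw [Int.le_floor, ← hXe]
      push_cast
      linarith
    have hsub : (Icc (-(2 * H : ℤ)) (2 * H)).filter (fun x : ℤ => ∃ p1 q1 p2 q2 : ℕ, p1.Prime ∧ q1.Prime ∧ p2.Prime ∧
        q2.Prime ∧ Q < p1 ∧ p1 < q1 ∧ P < p2 ∧ p2 ≤ 2 * P ∧ (n : ℤ) - x = p1 * q1 ∧ (n : ℤ) + x = p2 * q2) ⊆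
        (Icc (-⌊Y⌋) ⌊Y⌋).filter (fun x : ℤ => ∃ p1 q1 p2 q2 : ℕ, p1.Prime ∧ q1.Prime ∧ p2.Prime ∧
        q2.Prime ∧ Y ≤ (p1 : ℝ) ^ C ∧ p1 < q1 ∧ P < p2 ∧ p2 ≤ 2 * P ∧ (n : ℤ) - x = p1 * q1 ∧
        (n : ℤ) + x = p2 * q2) := by
      intro x hx
      rw [mem_filter, mem_Icc] at hx ⊢
      obtain ⟨⟨x1, x2⟩, p1, q1, p2, q2, y1, y2, y3, y4, y5, y6, y7, y8, y9, y10⟩ := hx
      refine ⟨⟨by omega, by omega⟩, p1, q1, p2, q2, y1, y2, y3, y4, ?_, y6, y7, y8, y9, y10⟩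
      have h2 : (Q : ℝ) ≤ p1 := by exact_mod_cast y5.le
      have h3 : X ≤ p1 := hQ1.trans h2
      rw [← hXe]
      calc X ^ 12 ≤ (p1 : ℝ) ^ 12 := pow_le_pow_left₀ (by linarith) h3 12
        _ ≤ (p1 : ℝ) ^ C := pow_le_pow_right₀ (by linarith) hC12
    exact_mod_cast card_le_card hsub

end Pool.Agent.H53.MIX
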