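import Pool.Agent.H53.MIX.GoldY
import Pool.Agent.H53.MDB.Final
import Pool.Agent.H53.MID.SwH
import Pool.Agent.H53.MID.JJh
import Pool.Agent.H80.LV.Main
import Pool.Agent.H97.VK.VkClass
import Pool.Agent.H76.VKT.Main
import Pool.Agent.H76.GB.PbCard

/-!
# MIX Main: all hypotheses of `gold_y` hold
-/

set_option autoImplicit false

namespace Pool.Agent.H53.MIX

open Finset

open Classical in
theorem main_y (θ : ℝ) (h1 : 2 / 3 < θ) (h2 : θ < 1) (A : ℕ) :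
    ∃ C N0 : ℕ, 0 < C ∧ ∀ N : ℕ, N0 ≤ N → ∀ (P : ℕ) (Y : ℝ), Real.exp (Real.log N ^ θ) ≤ Y → Y ^ 4 ≤ N →
    Real.log N ^ C ≤ P → (P : ℝ) ^ C ≤ Y →
    (((Ioc N (2 * N)).filter (fun n : ℕ => ¬ (Y / (C * Real.log N ^ 2 * Real.log P) ≤
      (((Icc (-⌊Y⌋) ⌊Y⌋).filter (fun x : ℤ => ∃ p1 q1 p2 q2 : ℕ,
        p1.Prime ∧ q1.Prime ∧ p2.Prime ∧ q2.Prime ∧ Y ≤ (p1 : ℝ) ^ C ∧ p1 < q1 ∧ P < p2 ∧
        p2 ≤ 2 * P ∧ (n : ℤ) - x = p1 * q1 ∧ (n : ℤ) + x = p2 * q2)).card : ℝ)))).card : ℝ) ≤ N / Real.log N ^ A := by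
  have hSW := Pool.Agent.H53.MID.sw_holds
  have e1 : 2 / 3 < 2 / 3 + (θ - 2 / 3) / 4 := by linarith
  have e2 : 2 / 3 + (θ - 2 / 3) / 4 < 1 := by linarith
  have hVK : VKw (2 / 3 + (θ - 2 / 3) / 4) := fun K B => Pool.Agent.H76.VKT.vk_class_t _ e1 e2 K B
  have hVE : VKe (2 / 3 + (θ - 2 / 3) / 4) := fun A => Pool.Agent.H76.VKT.vk_exp_t _ e1 e2 A
  have hCX : CombX (2 / 3 + (θ - 2 / 3) / 2) (2 / 3) :=
    Pool.Agent.H53.MDB.comb_x_all (2 / 3 + (θ - 2 / 3) / 4) _ _ (by linarith) (by linarith) (by linarith)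
      (by linarith) (by linarith) hVE
  exact gold_y (2 / 3 + (θ - 2 / 3) / 2) (2 / 3 + (θ - 2 / 3) / 4) (2 / 3) θ (by linarith) (by linarith)
    (by linarith) h2 (by norm_num) (by linarith) hVK hSW hCX
    (Pool.Agent.H53.MID.jj_holds (Pool.Agent.H80.LV.lv Pool.Agent.H97.VK.vk_class) hSW)
    Pool.Agent.H76.GB.pb_card A

end Pool.Agent.H53.MIX
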